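import Mathlib
import Pool.Agent.H640R3.CD.Step

set_option autoImplicit false

/-!
# The weighted estimate for families of coefficient functions
-/

namespace Pool.Agent.H640R3.CE

open Filter Topology
open Pool.Agent.H640R3.CD

noncomputable section

/-- `Φ` has bounded second moments relative to the probability `μ` -/
structure Good2 {G : Type} (μ : G → ℝ) (Φ : G → G → ℂ) (Q : ℝ) : Prop where
  nonneg : ∀ x, 0 ≤ μ x
  sum : HasSum μ 1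
  zero : ∀ g x, μ x = 0 → Φ g x = 0
  ex : ∀ g, ∃ V ≤ Q, HasSum (fun x => μ x * ‖Φ g x / (μ x : ℂ)‖ ^ 2) V

lemma Good2.eq_mul {G : Type} {μ : G → ℝ} {Φ : G → G → ℂ} {Q : ℝ} (h : Good2 μ Φ Q) (g x : G) :
    Φ g x = (μ x : ℂ) * (Φ g x / (μ x : ℂ)) := by
  by_cases hx : μ x = 0
  · rw [h.zero g x hx, zero_div, mul_zero]
  · have : (μ x : ℂ) ≠ 0 := by exact_mod_cast hx
    rw [mul_div_cancel₀ _ this]

lemma Good2.norm_le {G : Type} {μ : G → ℝ} {Φ : G → G → ℂ} {Q : ℝ} (h : Good2 μ Φ Q) (g : G) :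
    ∃ X, HasSum (fun x => ‖Φ g x‖) X ∧ X ^ 2 ≤ Q := by
  obtain ⟨V, hVQ, hV⟩ := h.ex g
  obtain ⟨X, hX, hX2⟩ := cs_real (b := fun x => ‖Φ g x / (μ x : ℂ)‖) h.nonneg h.sum hV
  refine ⟨X, ?_, by linarith⟩
  have h1 : (fun x => ‖Φ g x‖) = fun x => μ x * ‖Φ g x / (μ x : ℂ)‖ := by
    funext x
    conv_lhs => rw [h.eq_mul g x]
    rw [norm_mul, Complex.norm_real, Real.norm_eq_abs, abs_of_nonneg (h.nonneg x)]
  rw [h1]
  exact hX

variable {G : Type} [Group G]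

/-- the sum over pairs -/
lemma pair_sum {μ : G → ℝ} {Φ : G → G → ℂ} {Q : ℝ} (hG : Good2 μ Φ Q)
    (hz : ∀ g, HasSum (Φ g) 0) (H : G → G → ℂ) (hH : ∀ g x, H g x = Φ g x / (μ x : ℂ)) (g : G) :
    ∃ S ≤ Q / 2, HasSum (fun p : G × G =>
      μ p.1 * μ p.2 * ‖(1 / 2 : ℂ) * (H (g * p.1) p.2 + H g p.1)‖ ^ 2) S := by
  have h0 := hG.nonneg
  have hex : ∀ g, ∃ V ≤ Q, HasSum (fun x => μ x * ‖H g x‖ ^ 2) V := by
    intro g
    obtain ⟨V, hV1, hV2⟩ := hG.ex g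
    refine ⟨V, hV1, ?_⟩
    simp only [hH]
    exact hV2
  choose V hVQ hV using hex
  have hΦ : ∀ g x, Φ g x = (μ x : ℂ) * H g x := fun g x => by
    rw [hH]
    exact hG.eq_mul g x
  have hfib : ∀ y, HasSum (fun z => μ y * μ z * ‖(1 / 2 : ℂ) * (H (g * y) z + H g y)‖ ^ 2)
      (1 / 4 * μ y * (V (g * y) + ‖H g y‖ ^ 2)) := by
    intro y
    have e1 := hV (g * y)
    have e2 := hG.sum.mul_right (‖H g y‖ ^ 2)
    have e3 := Complex.hasSum_re ((hz (g * y)).mul_right ((starRingEnd ℂ) (H g y)))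
    rw [zero_mul, Complex.zero_re] at e3
    have e4 := ((e1.add e2).add (e3.mul_left 2)).mul_left (1 / 4 * μ y)
    have e5 : (fun z => μ y * μ z * ‖(1 / 2 : ℂ) * (H (g * y) z + H g y)‖ ^ 2)
        = fun z => 1 / 4 * μ y * (μ z * ‖H (g * y) z‖ ^ 2 + μ z * ‖H g y‖ ^ 2
          + 2 * (Φ (g * y) z * (starRingEnd ℂ) (H g y)).re) := by
      funext z
      have e7 : ‖(1 / 2 : ℂ)‖ = 1 / 2 := by norm_num
      rw [norm_mul, mul_pow, norm_add_sq_cplx, e7, hΦ, mul_assoc (μ z : ℂ), Complex.re_ofReal_mul]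
      ring
    have e6 : 1 / 4 * μ y * (V (g * y) + ‖H g y‖ ^ 2)
        = 1 / 4 * μ y * (V (g * y) + 1 * ‖H g y‖ ^ 2 + 2 * 0) := by ring
    rw [e5, e6]
    exact e4
  have hnn : (0 : G × G → ℝ) ≤ fun p : G × G =>
      μ p.1 * μ p.2 * ‖(1 / 2 : ℂ) * (H (g * p.1) p.2 + H g p.1)‖ ^ 2 := fun p =>
    mul_nonneg (mul_nonneg (h0 _) (h0 _)) (sq_nonneg _)
  have hV0 : ∀ g, 0 ≤ V g := fun g => (hV g).nonneg fun x => mul_nonneg (h0 _) (sq_nonneg _)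
  have hbd : HasSum (fun y => 1 / 4 * (μ y * Q + μ y * ‖H g y‖ ^ 2)) (1 / 4 * (1 * Q + V g)) :=
    ((hG.sum.mul_right Q).add (hV g)).mul_left _
  have hle : ∀ y, 1 / 4 * μ y * (V (g * y) + ‖H g y‖ ^ 2)
      ≤ 1 / 4 * (μ y * Q + μ y * ‖H g y‖ ^ 2) := by
    intro y
    have := mul_le_mul_of_nonneg_left (hVQ (g * y)) (h0 y)
    nlinarith
  have hnn2 : ∀ y, 0 ≤ 1 / 4 * μ y * (V (g * y) + ‖H g y‖ ^ 2) := fun y =>
    mul_nonneg (mul_nonneg (by norm_num) (h0 y)) (add_nonneg (hV0 _) (sq_nonneg _))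
  have hs1 : Summable (fun y => 1 / 4 * μ y * (V (g * y) + ‖H g y‖ ^ 2)) :=
    Summable.of_nonneg_of_le hnn2 hle hbd.summable
  have hsum : Summable (fun p : G × G =>
      μ p.1 * μ p.2 * ‖(1 / 2 : ℂ) * (H (g * p.1) p.2 + H g p.1)‖ ^ 2) := by
    rw [summable_prod_of_nonneg hnn]
    refine ⟨fun y => (hfib y).summable, ?_⟩
    refine hs1.congr fun y => ?_
    exact ((hfib y).tsum_eq).symm
  refine ⟨_, ?_, hsum.hasSum⟩
  have h5 : HasSum (fun y => 1 / 4 * μ y * (V (g * y) + ‖H g y‖ ^ 2))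
      (∑' p : G × G, μ p.1 * μ p.2 * ‖(1 / 2 : ℂ) * (H (g * p.1) p.2 + H g p.1)‖ ^ 2) :=
    hsum.hasSum.prod_fiberwise hfib
  have h6 := hasSum_le hle h5 hbd
  have h7 := hVQ g
  linarith

theorem step2 {μ : G → ℝ} {Φ Φ' : G → G → ℂ} {Q : ℝ} (hG : Good2 μ Φ Q)
    (hz : ∀ g, HasSum (Φ g) 0)
    (hΦ' : ∀ g x, HasSum (fun y => (1 / 2 : ℂ) * ((μ y : ℂ) * Φ (g * y) (y⁻¹ * x)
      + (μ (y⁻¹ * x) : ℂ) * Φ g y)) (Φ' g x)) :
    Good2 (cv μ) Φ' (Q / 2) := by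
  have h0 := hG.nonneg
  obtain ⟨hcv1, hcv2⟩ := cv_hasSum h0 hG.sum
  have hc0 := cv_nonneg (G := G) h0
  obtain ⟨H, hH⟩ : ∃ H : G → G → ℂ, ∀ g x, H g x = Φ g x / (μ x : ℂ) := ⟨_, fun _ _ => rfl⟩
  have hΦ : ∀ g x, Φ g x = (μ x : ℂ) * H g x := fun g x => by
    rw [hH]
    exact hG.eq_mul g x
  have key : ∀ g, ∃ S : G → ℝ, (∀ z, 0 ≤ S z) ∧ (∃ s ≤ Q / 2, HasSum S s) ∧
      ∀ z, ‖Φ' g z‖ ^ 2 ≤ cv μ z * S z := by
    intro g
    obtain ⟨s, hs, hP⟩ := pair_sum hG hz H hH g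
    obtain ⟨hS1, hS2⟩ := hasSum_fiber hP
    refine ⟨_, fun z => ?_, ⟨s, hs, hS1⟩, fun z => ?_⟩
    · exact tsum_nonneg fun y => mul_nonneg (mul_nonneg (h0 _) (h0 _)) (sq_nonneg _)
    · obtain ⟨X, hX, hX2⟩ := cs_real (w := fun y => μ y * μ (y⁻¹ * z))
        (b := fun y => ‖(1 / 2 : ℂ) * (H (g * y) (y⁻¹ * z) + H g y)‖)
        (fun y => mul_nonneg (h0 _) (h0 _)) (hcv2 z) (hS2 z)
      have h4 : ‖Φ' g z‖ ≤ X := by
        rw [← (hΦ' g z).tsum_eq]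
        refine tsum_of_norm_bounded hX fun y => ?_
        have e1 : (1 / 2 : ℂ) * ((μ y : ℂ) * Φ (g * y) (y⁻¹ * z) + (μ (y⁻¹ * z) : ℂ) * Φ g y)
            = ((μ y * μ (y⁻¹ * z) : ℝ) : ℂ) * ((1 / 2 : ℂ) * (H (g * y) (y⁻¹ * z) + H g y)) := by
          rw [hΦ (g * y), hΦ g y]
          push_cast
          ring
        rw [e1, norm_mul, Complex.norm_real, Real.norm_eq_abs,
          abs_of_nonneg (mul_nonneg (h0 _) (h0 _))]
      calc ‖Φ' g z‖ ^ 2 ≤ X ^ 2 := pow_le_pow_left₀ (norm_nonneg _) h4 2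
        _ ≤ _ := hX2
  refine ⟨hc0, hcv1, ?_, ?_⟩
  · intro g z hz
    obtain ⟨S, -, -, hcs⟩ := key g
    have h5 := hcs z
    rw [hz, zero_mul] at h5
    have h7 : ‖Φ' g z‖ ^ 2 = 0 := le_antisymm h5 (sq_nonneg _)
    have h6 : ‖Φ' g z‖ = 0 := (pow_eq_zero_iff (two_ne_zero)).1 h7
    rwa [norm_eq_zero] at h6
  · intro g
    obtain ⟨S, hS0, ⟨s, hs, hS⟩, hcs⟩ := key g
    have hle : ∀ z, cv μ z * ‖Φ' g z / (cv μ z : ℂ)‖ ^ 2 ≤ S z := by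
      intro z
      by_cases hz : cv μ z = 0
      · rw [hz, zero_mul]
        exact hS0 z
      · have hpos : 0 < cv μ z := lt_of_le_of_ne (hc0 z) (Ne.symm hz)
        rw [norm_div, Complex.norm_real, Real.norm_eq_abs, abs_of_pos hpos, div_pow]
        have h8 : cv μ z * (‖Φ' g z‖ ^ 2 / cv μ z ^ 2) = ‖Φ' g z‖ ^ 2 / cv μ z := by
          field_simp
        rw [h8, div_le_iff₀ hpos, mul_comm]
        exact hcs z
    have hnn : ∀ z, 0 ≤ cv μ z * ‖Φ' g z / (cv μ z : ℂ)‖ ^ 2 := fun z =>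
      mul_nonneg (hc0 z) (sq_nonneg _)
    have hsum : Summable (fun z => cv μ z * ‖Φ' g z / (cv μ z : ℂ)‖ ^ 2) :=
      Summable.of_nonneg_of_le hnn hle hS.summable
    refine ⟨∑' z, cv μ z * ‖Φ' g z / (cv μ z : ℂ)‖ ^ 2, ?_, hsum.hasSum⟩
    exact (hasSum_le hle hsum.hasSum hS).trans hs

end

end Pool.Agent.H640R3.CE
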