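import Mathlib
import Pool.Agent.H640R3.CD.Alg
import Pool.Agent.H640R3.CE.Fam

set_option autoImplicit false

/-!
# Matrices over the convolution algebra
-/

namespace Pool.Agent.H640R3.CE

open Filter Topology
open Pool.Agent.H640R3.CD

noncomputable section

variable {G : Type} [Group G] {ι : Type} [Fintype ι] [DecidableEq ι]

/-- value at a point -/
def evM (x : G) (F : Matrix ι ι (L G)) : Matrix ι ι ℂ := Matrix.of fun i j => F i j x

lemma evM_apply (x : G) (F : Matrix ι ι (L G)) (i j : ι) : evM x F i j = F i j x := rfl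

lemma sum_at (v : ι → L G) (x : G) : (∑ i, v i) x = ∑ i, (v i) x := by
  have := map_sum (ev x) v Finset.univ
  exact this

lemma mulM_hasSum (A F : Matrix ι ι (L G)) (x : G) (i k : ι) :
    HasSum (fun y => (evM y A * evM (y⁻¹ * x) F) i k) ((A * F) i k x) := by
  rw [Matrix.mul_apply, sum_at]
  have h : HasSum (fun y => ∑ j, A i j y * F j k (y⁻¹ * x)) (∑ j, (A i j * F j k) x) :=
    hasSum_sum fun j _ => mul_hasSum (A i j) (F j k) x
  exact h

lemma sandwich {α : Type} (P T : Matrix ι ι ℂ) {M : α → Matrix ι ι ℂ} {N : Matrix ι ι ℂ}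
    (h : ∀ i k, HasSum (fun y => M y i k) (N i k)) (i k : ι) :
    HasSum (fun y => (P * M y * T) i k) ((P * N * T) i k) := by
  simp only [Matrix.mul_apply]
  exact hasSum_sum fun l _ => (hasSum_sum fun j _ => (h j l).mul_left (P i j)).mul_right (T l k)

/-- the coefficient functions -/
def Phi (P T : G → Matrix ι ι ℂ) (F : Matrix ι ι (L G)) (i k : ι) (g x : G) : ℂ :=
  (P g * evM x F * T (g * x)) i k

theorem phi_rec (P T : G → Matrix ι ι ℂ) (hP : ∀ g h, P (g * h) = P g * P h)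
    (hT : ∀ g h, T (g * h) = T h * T g) (μ : G → ℝ) (a b F : Matrix ι ι (L G))
    (ha : ∀ x, evM x a = (μ x : ℂ) • P x) (hb : ∀ x, evM x b = (μ x : ℂ) • T x⁻¹) (i k : ι)
    (g x : G) :
    HasSum (fun y => (1 / 2 : ℂ) * ((μ y : ℂ) * Phi P T F i k (g * y) (y⁻¹ * x)
      + (μ (y⁻¹ * x) : ℂ) * Phi P T F i k g y))
      (Phi P T ((1 / 2 : ℂ) • (a * F + F * b)) i k g x) := by
  have h1 : ∀ j l, HasSum (fun y => ((1 / 2 : ℂ) • (evM y a * evM (y⁻¹ * x) F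
      + evM y F * evM (y⁻¹ * x) b)) j l) (evM x ((1 / 2 : ℂ) • (a * F + F * b)) j l) := fun j l =>
    ((mulM_hasSum a F x j l).add (mulM_hasSum F b x j l)).mul_left (1 / 2 : ℂ)
  have h2 := sandwich (P g) (T (g * x)) h1 i k
  have h3 : (fun y => (P g * ((1 / 2 : ℂ) • (evM y a * evM (y⁻¹ * x) F
      + evM y F * evM (y⁻¹ * x) b)) * T (g * x)) i k)
      = fun y => (1 / 2 : ℂ) * ((μ y : ℂ) * Phi P T F i k (g * y) (y⁻¹ * x)
      + (μ (y⁻¹ * x) : ℂ) * Phi P T F i k g y) := by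
    funext y
    have e1 : P g * ((1 / 2 : ℂ) • (evM y a * evM (y⁻¹ * x) F
        + evM y F * evM (y⁻¹ * x) b)) * T (g * x)
        = (1 / 2 : ℂ) • ((μ y : ℂ) • (P (g * y) * evM (y⁻¹ * x) F * T (g * y * (y⁻¹ * x)))
          + (μ (y⁻¹ * x) : ℂ) • (P g * evM y F * T (g * y))) := by
      have e2 : T (g * y) = T (y⁻¹ * x)⁻¹ * T (g * x) := by
        rw [← hT]
        congr 1
        group
      have e3 : g * y * (y⁻¹ * x) = g * x := by group
      rw [ha, hb, e2, e3, hP]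
      simp only [mul_smul_comm, smul_mul_assoc, mul_add, add_mul, mul_assoc, smul_add]
    rw [e1]
    rfl
  rw [h3] at h2
  exact h2

/-- convolution of twisted measures -/
lemma tw_mul (P : G → Matrix ι ι ℂ) (hP : ∀ g h, P (g * h) = P g * P h) {μ ν : G → ℝ}
    (hμ0 : ∀ x, 0 ≤ μ x) (hμ : HasSum μ 1) (hν0 : ∀ x, 0 ≤ ν x) (hν : HasSum ν 1)
    (A B : Matrix ι ι (L G)) (hA : ∀ x, evM x A = (ν x : ℂ) • P x)
    (hB : ∀ x, evM x B = (μ x : ℂ) • P x) :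
    (∀ x, 0 ≤ ∑' y, ν y * μ (y⁻¹ * x)) ∧ HasSum (fun x => ∑' y, ν y * μ (y⁻¹ * x)) 1 ∧
      ∀ x, evM x (A * B) = ((∑' y, ν y * μ (y⁻¹ * x) : ℝ) : ℂ) • P x := by
  have h1 : HasSum (fun p : G × G => ν p.1 * μ p.2) 1 := sum1 hν0 hν hμ0 hμ
  obtain ⟨h2, h3⟩ := hasSum_fiber h1
  refine ⟨fun x => tsum_nonneg fun y => mul_nonneg (hν0 _) (hμ0 _), h2, fun x => ?_⟩
  ext i k
  have h4 := mulM_hasSum A B x i k
  have h5 := (Complex.hasSum_ofReal.2 (h3 x)).mul_right (P x i k)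
  have h6 : (fun y => (evM y A * evM (y⁻¹ * x) B) i k)
      = fun y => ((ν y * μ (y⁻¹ * x) : ℝ) : ℂ) * P x i k := by
    funext y
    have e1 : P x = P y * P (y⁻¹ * x) := by
      rw [← hP]
      congr 1
      group
    rw [hA, hB, e1, smul_mul_smul_comm, Matrix.smul_apply, smul_eq_mul]
    push_cast
    rfl
  rw [h6] at h4
  rw [Matrix.smul_apply, smul_eq_mul]
  exact h4.unique h5

lemma museq_tw (P : G → Matrix ι ι ℂ) (hP : ∀ g h, P (g * h) = P g * P h) {μ : G → ℝ}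
    (hμ0 : ∀ x, 0 ≤ μ x) (hμ : HasSum μ 1) (A : Matrix ι ι (L G))
    (hA : ∀ x, evM x A = (μ x : ℂ) • P x) :
    ∀ x, evM x (A * A) = (cv μ x : ℂ) • P x := (tw_mul P hP hμ0 hμ hμ0 hμ A A hA hA).2.2

lemma pow_tw (P : G → Matrix ι ι ℂ) (hP : ∀ g h, P (g * h) = P g * P h) {μ : G → ℝ}
    (hμ0 : ∀ x, 0 ≤ μ x) (hμ : HasSum μ 1) (A : Matrix ι ι (L G))
    (hA : ∀ x, evM x A = (μ x : ℂ) • P x) (k : ℕ) :
    ∃ ν : G → ℝ, (∀ x, 0 ≤ ν x) ∧ HasSum ν 1 ∧ ∀ x, evM x (A ^ (k + 1)) = (ν x : ℂ) • P x := by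
  induction k with
  | zero =>
    refine ⟨μ, hμ0, hμ, ?_⟩
    rw [zero_add, pow_one]
    exact hA
  | succ k ih =>
    obtain ⟨ν, hν0, hν, hνA⟩ := ih
    have h := tw_mul P hP hμ0 hμ hν0 hν (A ^ (k + 1)) A hνA hA
    refine ⟨_, h.1, h.2.1, ?_⟩
    rw [pow_succ]
    exact h.2.2

lemma norm_tw_le (P : G → Matrix ι ι ℂ) {K : ℝ} (hK : ∀ x i j, ‖P x i j‖ ≤ K) {ν : G → ℝ}
    (hν0 : ∀ x, 0 ≤ ν x) (hν : HasSum ν 1) (A : Matrix ι ι (L G))
    (hA : ∀ x, evM x A = (ν x : ℂ) • P x) (i j : ι) : ‖A i j‖ ≤ K := by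
  have h1 := norm_hasSum (A i j)
  have h2 : HasSum (fun x => ν x * K) (1 * K) := hν.mul_right K
  rw [one_mul] at h2
  refine hasSum_le (fun x => ?_) h1 h2
  have e1 : A i j x = (ν x : ℂ) * P x i j := by
    rw [← evM_apply, hA, Matrix.smul_apply, smul_eq_mul]
  rw [e1, norm_mul, Complex.norm_real, Real.norm_eq_abs, abs_of_nonneg (hν0 x)]
  exact mul_le_mul_of_nonneg_left (hK x i j) (hν0 x)

/-- existence of twisted measures -/
lemma exists_tw (P : G → Matrix ι ι ℂ) {K : ℝ} (hK : ∀ x i j, ‖P x i j‖ ≤ K) {μ : G → ℝ}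
    (hμ0 : ∀ x, 0 ≤ μ x) (hμ : HasSum μ 1) :
    ∃ A : Matrix ι ι (L G), ∀ x, evM x A = (μ x : ℂ) • P x := by
  have hs : ∀ i j, Summable fun x => ‖(μ x : ℂ) * P x i j‖ := by
    intro i j
    refine Summable.of_nonneg_of_le (fun _ => norm_nonneg _) (fun x => ?_)
      (hμ.mul_right K).summable
    rw [norm_mul, Complex.norm_real, Real.norm_eq_abs, abs_of_nonneg (hμ0 x)]
    exact mul_le_mul_of_nonneg_left (hK x i j) (hμ0 x)
  refine ⟨Matrix.of fun i j => mk (fun x => (μ x : ℂ) * P x i j) (hs i j), fun x => ?_⟩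
  ext i j
  rfl

/-- bound of the norm by the coefficient functions -/
lemma norm_ent_le (P T : G → Matrix ι ι ℂ) (hP1 : P 1 = 1) (hT1 : T 1 = 1)
    (hT : ∀ g h, T (g * h) = T h * T g) {K : ℝ} (hK : ∀ x i j, ‖T x i j‖ ≤ K)
    (F : Matrix ι ι (L G)) {D : ℝ}
    (h : ∀ i k, ∃ X ≤ D, HasSum (fun x => ‖Phi P T F i k 1 x‖) X) (i j : ι) :
    ‖F i j‖ ≤ Fintype.card ι * (D * K) := by
  choose X hXD hX using h
  have hK0 : 0 ≤ K := (norm_nonneg _).trans (hK 1 i j)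
  have h1 := norm_hasSum (F i j)
  have h2 : HasSum (fun x => ∑ k, ‖Phi P T F i k 1 x‖ * K) (∑ k, X i k * K) :=
    hasSum_sum fun k _ => (hX i k).mul_right K
  have h3 : ∑ k, X i k * K ≤ Fintype.card ι * (D * K) := by
    have := Finset.sum_le_card_nsmul Finset.univ (fun k => X i k * K) (D * K) (fun k _ =>
      mul_le_mul_of_nonneg_right (hXD i k) hK0)
    simpa using this
  refine (hasSum_le (fun x => ?_) h1 h2).trans h3
  have e1 : F i j x = ∑ k, Phi P T F i k 1 x * T x⁻¹ k j := by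
    have e2 : evM x F = (P 1 * evM x F * T (1 * x)) * T x⁻¹ := by
      rw [hP1, one_mul, one_mul, mul_assoc, ← hT, inv_mul_cancel, hT1, mul_one]
    have e3 := congrArg (fun M : Matrix ι ι ℂ => M i j) e2
    simp only [Matrix.mul_apply (M := P 1 * evM x F * T (1 * x))] at e3
    exact e3
  rw [e1]
  refine norm_sum_le_of_le _ fun k _ => ?_
  rw [norm_mul]
  exact mul_le_mul_of_nonneg_left (hK _ _ _) (norm_nonneg _)

/-- the initial estimate -/
lemma good_init {μ : G → ℝ} (hμ0 : ∀ x, 0 ≤ μ x) (hμ : HasSum μ 1) (Φ : G → G → ℂ) {D : ℝ}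
    (h : ∀ g x, ‖Φ g x‖ ≤ D * μ x) : Good2 μ Φ (D ^ 2) := by
  have hD : ∀ g x, ‖Φ g x / (μ x : ℂ)‖ ≤ |D| := by
    intro g x
    rw [norm_div, Complex.norm_real, Real.norm_eq_abs, abs_of_nonneg (hμ0 x)]
    rcases (hμ0 x).eq_or_lt with h1 | h1
    · rw [← h1, div_zero]
      exact abs_nonneg _
    · rw [div_le_iff₀ h1]
      exact (h g x).trans (mul_le_mul_of_nonneg_right (le_abs_self D) (hμ0 x))
  refine ⟨hμ0, hμ, ?_, ?_⟩
  · intro g x hx
    have := h g x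
    rw [hx, mul_zero] at this
    exact norm_le_zero_iff.1 this
  · intro g
    have h1 : ∀ x, μ x * ‖Φ g x / (μ x : ℂ)‖ ^ 2 ≤ μ x * D ^ 2 := by
      intro x
      refine mul_le_mul_of_nonneg_left ?_ (hμ0 x)
      rw [← sq_abs D]
      exact pow_le_pow_left₀ (norm_nonneg _) (hD g x) 2
    have h2 := hμ.mul_right (D ^ 2)
    have h3 : Summable (fun x => μ x * ‖Φ g x / (μ x : ℂ)‖ ^ 2) :=
      Summable.of_nonneg_of_le (fun x => mul_nonneg (hμ0 x) (sq_nonneg _)) h1 h2.summable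
    refine ⟨_, ?_, h3.hasSum⟩
    have := hasSum_le h1 h3.hasSum h2
    rwa [one_mul] at this

lemma norm_mul3_le (A B C : Matrix ι ι ℂ) {p q r : ℝ} (hp : ∀ i j, ‖A i j‖ ≤ p)
    (hq : ∀ i j, ‖B i j‖ ≤ q) (hr : ∀ i j, ‖C i j‖ ≤ r) (i j : ι) :
    ‖(A * B * C) i j‖ ≤ Fintype.card ι * (Fintype.card ι * (p * q) * r) := by
  have hp0 : 0 ≤ p := (norm_nonneg _).trans (hp i j)
  have hq0 : 0 ≤ q := (norm_nonneg _).trans (hq i j)
  have h1 : ∀ k, ‖(A * B) i k‖ ≤ Fintype.card ι * (p * q) := by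
    intro k
    rw [Matrix.mul_apply]
    refine (norm_sum_le_of_le _ fun l _ => ?_).trans
      (le_of_eq (by rw [Finset.sum_const, Finset.card_univ, nsmul_eq_mul]))
    rw [norm_mul]
    exact mul_le_mul (hp _ _) (hq _ _) (norm_nonneg _) hp0
  rw [Matrix.mul_apply]
  refine (norm_sum_le_of_le _ fun l _ => ?_).trans
    (le_of_eq (by rw [Finset.sum_const, Finset.card_univ, nsmul_eq_mul]))
  rw [norm_mul]
  exact mul_le_mul (h1 _) (hr _ _) (norm_nonneg _) (by positivity)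

end

end Pool.Agent.H640R3.CE
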