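import Mathlib
import Pool.Agent.H640R3.CD.Alg
import Pool.Agent.H640R3.CD.Step
import Pool.Agent.H640R3.CE.Mat

set_option autoImplicit false

/-!
# Regular representations of a finite dimensional quotient
-/

namespace Pool.Agent.H640R3.CE

open Filter Topology
open Pool.Agent.H640R3.CD

noncomputable section

variable {G : Type} [Group G] {ι : Type} [Fintype ι] [DecidableEq ι]

/-- basis and coordinates of the quotient by `I` -/
structure Dat (I : Submodule ℂ (L G)) (s : ι → L G) (c : ι → (L G →L[ℂ] ℂ)) : Prop where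
  left : ∀ a ∈ I, ∀ b, b * a ∈ I
  right : ∀ a ∈ I, ∀ b, a * b ∈ I
  zero : ∀ i, ∀ a ∈ I, c i a = 0
  dec : ∀ a, a - ∑ i, c i a • s i ∈ I
  dual : ∀ i j, c i (s j) = if i = j then 1 else 0

/-- the twist on the left -/
def PP (s : ι → L G) (c : ι → (L G →L[ℂ] ℂ)) (g : G) : Matrix ι ι ℂ :=
  Matrix.of fun k i => c k (s i * e g⁻¹)

/-- the twist on the right -/
def TT (s : ι → L G) (c : ι → (L G →L[ℂ] ℂ)) (g : G) : Matrix ι ι ℂ :=
  Matrix.of fun j k => c k (e g * s j)

variable {I : Submodule ℂ (L G)} {s : ι → L G} {c : ι → (L G →L[ℂ] ℂ)}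

omit [DecidableEq ι] in
lemma sum_smul_mul (v : ι → ℂ) (w : ι → L G) (b : L G) :
    (∑ i, v i • w i) * b = ∑ i, v i • (w i * b) := by
  rw [Finset.sum_mul]
  exact Finset.sum_congr rfl fun i _ => smul_mul_assoc _ _ _

omit [DecidableEq ι] in
lemma mul_sum_smul (v : ι → ℂ) (w : ι → L G) (b : L G) :
    b * (∑ i, v i • w i) = ∑ i, v i • (b * w i) := by
  rw [Finset.mul_sum]
  exact Finset.sum_congr rfl fun i _ => mul_smul_comm _ _ _

lemma Dat.mem (h : Dat I s c) {a : L G} (ha : ∀ i, c i a = 0) : a ∈ I := by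
  have := h.dec a
  simpa [ha] using this

lemma Dat.expand_left (h : Dat I s c) (k : ι) (a b : L G) :
    c k (b * a) = ∑ i, c i a * c k (b * s i) := by
  have h1 := h.zero k _ (h.left _ (h.dec a) b)
  rw [mul_sub, map_sub, sub_eq_zero, mul_sum_smul, map_sum] at h1
  rw [h1]
  exact Finset.sum_congr rfl fun i _ => by rw [map_smul, smul_eq_mul]

lemma Dat.expand_right (h : Dat I s c) (k : ι) (a b : L G) :
    c k (a * b) = ∑ i, c i a * c k (s i * b) := by
  have h1 := h.zero k _ (h.right _ (h.dec a) b)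
  rw [sub_mul, map_sub, sub_eq_zero, sum_smul_mul, map_sum] at h1
  rw [h1]
  exact Finset.sum_congr rfl fun i _ => by rw [map_smul, smul_eq_mul]

lemma Dat.P_mul (h : Dat I s c) (g k : G) : PP s c (g * k) = PP s c g * PP s c k := by
  ext i j
  rw [Matrix.mul_apply]
  change c i (s j * e (g * k)⁻¹) = ∑ l, c i (s l * e g⁻¹) * c l (s j * e k⁻¹)
  rw [mul_inv_rev, ← e_mul_e, ← mul_assoc, h.expand_right i (s j * e k⁻¹) (e g⁻¹)]
  exact Finset.sum_congr rfl fun l _ => mul_comm _ _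

lemma Dat.T_mul (h : Dat I s c) (g k : G) : TT s c (g * k) = TT s c k * TT s c g := by
  ext i j
  rw [Matrix.mul_apply]
  change c j (e (g * k) * s i) = ∑ l, c l (e k * s i) * c j (e g * s l)
  rw [← e_mul_e, mul_assoc, h.expand_left j (e k * s i) (e g)]

lemma Dat.P_one (h : Dat I s c) : PP s c (1 : G) = 1 := by
  ext i j
  change c i (s j * e (1 : G)⁻¹) = (1 : Matrix ι ι ℂ) i j
  rw [inv_one, ← one_def, mul_one, h.dual, Matrix.one_apply]

lemma Dat.T_one (h : Dat I s c) : TT s c (1 : G) = 1 := by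
  ext i j
  change c j (e (1 : G) * s i) = (1 : Matrix ι ι ℂ) i j
  rw [← one_def, one_mul, h.dual, Matrix.one_apply]
  simp only [eq_comm]

/-- a bound for all entries -/
lemma exists_bound (s : ι → L G) (c : ι → (L G →L[ℂ] ℂ)) :
    ∃ K, 0 ≤ K ∧ (∀ g i j, ‖PP s c g i j‖ ≤ K) ∧ (∀ g i j, ‖TT s c g i j‖ ≤ K) := by
  refine ⟨∑ i, ∑ j, ‖c i‖ * ‖s j‖, by positivity, ?_, ?_⟩
  · intro g i j
    have h1 : ‖c i‖ * ‖s j‖ ≤ ∑ i, ∑ j, ‖c i‖ * ‖s j‖ := by
      have h2 : ‖c i‖ * ‖s j‖ ≤ ∑ j, ‖c i‖ * ‖s j‖ :=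
        Finset.single_le_sum (f := fun j => ‖c i‖ * ‖s j‖) (fun _ _ => by positivity)
          (Finset.mem_univ j)
      refine h2.trans ?_
      exact Finset.single_le_sum (f := fun i => ∑ j, ‖c i‖ * ‖s j‖) (fun _ _ => by positivity)
          (Finset.mem_univ i)
    refine le_trans ?_ h1
    change ‖c i (s j * e g⁻¹)‖ ≤ _
    refine ((c i).le_opNorm _).trans (mul_le_mul_of_nonneg_left ?_ (norm_nonneg _))
    refine (norm_mul_le _ _).trans ?_
    rw [norm_e, mul_one]
  · intro g i j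
    have h1 : ‖c j‖ * ‖s i‖ ≤ ∑ i, ∑ j, ‖c i‖ * ‖s j‖ := by
      have h2 : ‖c j‖ * ‖s i‖ ≤ ∑ i, ‖c j‖ * ‖s i‖ :=
        Finset.single_le_sum (f := fun i => ‖c j‖ * ‖s i‖) (fun _ _ => by positivity)
          (Finset.mem_univ i)
      refine h2.trans ?_
      exact Finset.single_le_sum (f := fun j => ∑ i, ‖c j‖ * ‖s i‖) (fun _ _ => by positivity)
          (Finset.mem_univ j)
    refine le_trans ?_ h1
    change ‖c j (e g * s i)‖ ≤ _
    refine ((c j).le_opNorm _).trans (mul_le_mul_of_nonneg_left ?_ (norm_nonneg _))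
    refine (norm_mul_le _ _).trans ?_
    rw [norm_e, one_mul]

open Matrix

lemma vecMul_mem (h : Dat I s c) {v : ι → L G} (hv : ∀ m, v m ∈ I) (N : Matrix ι ι (L G)) (k : ι) :
    (v ᵥ* N) k ∈ I := by
  change ∑ m, v m * N m k ∈ I
  exact Submodule.sum_mem _ fun m _ => h.right _ (hv m) _

lemma mulVec_mem (h : Dat I s c) {v : ι → L G} (hv : ∀ m, v m ∈ I) (N : Matrix ι ι (L G)) (k : ι) :
    (N *ᵥ v) k ∈ I := by
  change ∑ m, N k m * v m ∈ I
  exact Submodule.sum_mem _ fun m _ => h.left _ (hv m) _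

/-- `s` is fixed from the left modulo `I` -/
def FixL (I : Submodule ℂ (L G)) (s : ι → L G) (M : Matrix ι ι (L G)) : Prop :=
  ∀ k, (s ᵥ* M) k - s k ∈ I

/-- `s` is fixed from the right modulo `I` -/
def FixR (I : Submodule ℂ (L G)) (s : ι → L G) (M : Matrix ι ι (L G)) : Prop :=
  ∀ k, (M *ᵥ s) k - s k ∈ I

lemma FixL.one : FixL I s (1 : Matrix ι ι (L G)) := by
  intro k
  rw [Matrix.vecMul_one, sub_self]
  exact I.zero_mem

lemma FixR.one : FixR I s (1 : Matrix ι ι (L G)) := by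
  intro k
  rw [Matrix.one_mulVec, sub_self]
  exact I.zero_mem

lemma FixL.mul (h : Dat I s c) {M N : Matrix ι ι (L G)} (hM : FixL I s M) (hN : FixL I s N) :
    FixL I s (M * N) := by
  intro k
  have e1 : (s ᵥ* (M * N)) k - s k = ((s ᵥ* M - s) ᵥ* N) k + ((s ᵥ* N) k - s k) := by
    rw [Matrix.sub_vecMul, ← Matrix.vecMul_vecMul, Pi.sub_apply]
    abel
  rw [e1]
  exact I.add_mem (vecMul_mem h (fun m => hM m) N k) (hN k)

lemma FixR.mul (h : Dat I s c) {M N : Matrix ι ι (L G)} (hM : FixR I s M) (hN : FixR I s N) :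
    FixR I s (M * N) := by
  intro k
  have e1 : ((M * N) *ᵥ s) k - s k = (M *ᵥ (N *ᵥ s - s)) k + ((M *ᵥ s) k - s k) := by
    rw [Matrix.mulVec_sub, Matrix.mulVec_mulVec, Pi.sub_apply]
    abel
  rw [e1]
  exact I.add_mem (mulVec_mem h (fun m => hN m) M k) (hM k)

lemma FixL.pow (h : Dat I s c) {M : Matrix ι ι (L G)} (hM : FixL I s M) (n : ℕ) :
    FixL I s (M ^ n) := by
  induction n with
  | zero =>
    rw [pow_zero]
    exact FixL.one
  | succ n ih =>
    rw [pow_succ]
    exact FixL.mul h ih hM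

lemma FixR.pow (h : Dat I s c) {M : Matrix ι ι (L G)} (hM : FixR I s M) (n : ℕ) :
    FixR I s (M ^ n) := by
  induction n with
  | zero =>
    rw [pow_zero]
    exact FixR.one
  | succ n ih =>
    rw [pow_succ]
    exact FixR.mul h ih hM

/-- the functional applied to a product with a fixed right factor -/
lemma c_mul_hasSum (φ : L G →L[ℂ] ℂ) (a b : L G) :
    HasSum (fun x => a x * φ (e x * b)) (φ (a * b)) := by
  have h1 := ((hasSum_e a).mul_right b).mapL φ
  have h2 : (fun x => φ (a x • e x * b)) = fun x => a x * φ (e x * b) := by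
    funext x
    rw [smul_mul_assoc, map_smul, smul_eq_mul]
  rwa [h2] at h1

lemma c_mul_hasSum' (φ : L G →L[ℂ] ℂ) (a b : L G) :
    HasSum (fun x => b x * φ (a * e x)) (φ (a * b)) := by
  have h1 := ((hasSum_e b).mul_left a).mapL φ
  have h2 : (fun x => φ (a * b x • e x)) = fun x => b x * φ (a * e x) := by
    funext x
    rw [mul_smul_comm, map_smul, smul_eq_mul]
  rwa [h2] at h1

/-- the coefficients of the second kind -/
lemma col_hasSum (F : Matrix ι ι (L G)) (j l : ι) :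
    HasSum (fun x => (evM x F * TT s c x) j l) (c l ((F *ᵥ s) j)) := by
  have h1 : (F *ᵥ s) j = ∑ m, F j m * s m := rfl
  rw [h1, map_sum]
  have h2 : (fun x => (evM x F * TT s c x) j l) = fun x => ∑ m, F j m x * c l (e x * s m) := by
    funext x
    rw [Matrix.mul_apply]
    rfl
  rw [h2]
  exact hasSum_sum fun m _ => c_mul_hasSum (c l) (F j m) (s m)

lemma row_hasSum (F : Matrix ι ι (L G)) (j l : ι) :
    HasSum (fun x => (PP s c x⁻¹ * evM x F) l j) (c l ((s ᵥ* F) j)) := by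
  have h1 : (s ᵥ* F) j = ∑ m, s m * F m j := rfl
  rw [h1, map_sum]
  have h2 : (fun x => (PP s c x⁻¹ * evM x F) l j) = fun x => ∑ m, F m j x * c l (s m * e x) := by
    funext x
    rw [Matrix.mul_apply]
    refine Finset.sum_congr rfl fun m _ => ?_
    change c l (s m * e x⁻¹⁻¹) * F m j x = _
    rw [inv_inv, mul_comm]
  rw [h2]
  exact hasSum_sum fun m _ => c_mul_hasSum' (c l) (s m) (F m j)

/-- the twisted measure on the right fixes `s` -/
lemma Dat.fixR (h : Dat I s c) {μ : G → ℝ} (hμ : HasSum μ 1) {b : Matrix ι ι (L G)}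
    (hb : ∀ x, evM x b = (μ x : ℂ) • TT s c x⁻¹) : FixR I s b := by
  intro k
  apply h.mem
  intro l
  rw [map_sub, sub_eq_zero]
  have h1 := col_hasSum (s := s) (c := c) b k l
  have h2 : (fun x => (evM x b * TT s c x) k l)
      = fun x => (μ x : ℂ) * (1 : Matrix ι ι ℂ) k l := by
    funext x
    rw [hb, smul_mul_assoc, ← h.T_mul, mul_inv_cancel, h.T_one, Matrix.smul_apply, smul_eq_mul]
  rw [h2] at h1
  have h3 := (Complex.hasSum_ofReal.2 hμ).mul_right ((1 : Matrix ι ι ℂ) k l)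
  have h4 := h1.unique h3
  rw [h4, h.dual, Matrix.one_apply]
  simp [eq_comm]

/-- the twisted measure on the left fixes `s` -/
lemma Dat.fixL (h : Dat I s c) {μ : G → ℝ} (hμ : HasSum μ 1) {a : Matrix ι ι (L G)}
    (ha : ∀ x, evM x a = (μ x : ℂ) • PP s c x) : FixL I s a := by
  intro k
  apply h.mem
  intro l
  rw [map_sub, sub_eq_zero]
  have h1 := row_hasSum (s := s) (c := c) a k l
  have h2 : (fun x => (PP s c x⁻¹ * evM x a) l k)
      = fun x => (μ x : ℂ) * (1 : Matrix ι ι ℂ) l k := by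
    funext x
    rw [ha, mul_smul_comm, ← h.P_mul, inv_mul_cancel, h.P_one, Matrix.smul_apply, smul_eq_mul]
  rw [h2] at h1
  have h3 := (Complex.hasSum_ofReal.2 hμ).mul_right ((1 : Matrix ι ι ℂ) l k)
  have h4 := h1.unique h3
  rw [h4, h.dual, Matrix.one_apply]
  simp

/-- the vanishing of the sums of the coefficient functions -/
lemma Dat.phi_zero (h : Dat I s c) (F : Matrix ι ι (L G)) (hF : ∀ j, (F *ᵥ s) j ∈ I) (i k : ι)
    (g : G) : HasSum (Phi (PP s c) (TT s c) F i k g) 0 := by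
  have h1 : ∀ j l, HasSum (fun x => (evM x F * TT s c x) j l) ((0 : Matrix ι ι ℂ) j l) := by
    intro j l
    have := col_hasSum (s := s) (c := c) F j l
    rw [h.zero l _ (hF j)] at this
    exact this
  have h2 := sandwich (PP s c g) (TT s c g) h1 i k
  rw [mul_zero, zero_mul] at h2
  have h3 : (fun x => (PP s c g * (evM x F * TT s c x) * TT s c g) i k)
      = Phi (PP s c) (TT s c) F i k g := by
    funext x
    unfold Phi
    rw [h.T_mul]
    simp only [mul_assoc]
  rw [h3] at h2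
  exact h2

end

end Pool.Agent.H640R3.CE
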