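import Mathlib
import Pool.Agent.H640R3.CD.Fac

set_option autoImplicit false

/-!
# A factorisation lemma for commuting operators generating a bounded semigroup
-/

namespace Pool.Agent.H640R3.CE

open Filter Topology
open Pool.Agent.H640R3.CD

noncomputable section

variable {E : Type*} [NormedAddCommGroup E] [NormedSpace ℂ E]

lemma geo_part (m : ℕ) : ∑ k ∈ Finset.range m, (1 / 2 : ℝ) ^ (k + 1) = 1 - (1 / 2 : ℝ) ^ m := by
  induction m with
  | zero => simp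
  | succ m ih =>
    rw [Finset.sum_range_succ, ih]
    ring

lemma half_lt (m : ℕ) : (0 : ℝ) < (1 / 2 : ℝ) ^ m ∧ (1 / 2 : ℝ) ^ m ≤ 1 :=
  ⟨by positivity, pow_le_one₀ (by norm_num) (by norm_num)⟩

lemma norm_Sm_pow {T : ℕ → (E →L[ℂ] E)} {C : ℝ}
    (hT : ∀ P ∈ Submonoid.closure (Set.range T), ‖P‖ ≤ C) (m n : ℕ) :
    ∀ P ∈ Submonoid.closure (Set.range T), ‖P * (Sm T m) ^ n‖ ≤ C * (1 - (1 / 2 : ℝ) ^ m) ^ n := by
  induction n with
  | zero =>
    intro P hP
    rw [pow_zero, pow_zero, mul_one, mul_one]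
    exact hT P hP
  | succ n ih =>
    intro P hP
    rw [pow_succ', ← mul_assoc]
    have e1 : P * Sm T m * (Sm T m) ^ n
        = ∑ k ∈ Finset.range m, ((1 / 2 : ℂ) ^ (k + 1)) • ((P * T k) * (Sm T m) ^ n) := by
      have : P * Sm T m = ∑ k ∈ Finset.range m, ((1 / 2 : ℂ) ^ (k + 1)) • (P * T k) := by
        unfold Sm
        rw [Finset.mul_sum]
        refine Finset.sum_congr rfl fun k _ => ?_
        rw [mul_smul_comm]
      rw [this, Finset.sum_mul]
      refine Finset.sum_congr rfl fun k _ => ?_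
      rw [smul_mul_assoc]
    rw [e1]
    have h2 : ‖∑ k ∈ Finset.range m, ((1 / 2 : ℂ) ^ (k + 1)) • ((P * T k) * (Sm T m) ^ n)‖
        ≤ ∑ k ∈ Finset.range m, (1 / 2 : ℝ) ^ (k + 1) * (C * (1 - (1 / 2 : ℝ) ^ m) ^ n) := by
      refine norm_sum_le_of_le _ fun k _ => ?_
      rw [norm_smul, norm_half]
      refine mul_le_mul_of_nonneg_left ?_ (by positivity)
      exact ih _ (Submonoid.mul_mem _ hP (Submonoid.subset_closure ⟨k, rfl⟩))
    rw [← Finset.sum_mul, geo_part] at h2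
    refine h2.trans (le_of_eq ?_)
    ring

variable [CompleteSpace E]

lemma summable_Sm {T : ℕ → (E →L[ℂ] E)} {C : ℝ}
    (hT : ∀ P ∈ Submonoid.closure (Set.range T), ‖P‖ ≤ C) (m : ℕ) :
    Summable (fun n : ℕ => (Sm T m) ^ n) := by
  have h1 := half_lt m
  refine Summable.of_norm_bounded (g := fun n => C * (1 - (1 / 2 : ℝ) ^ m) ^ n) ?_ fun n => ?_
  · exact (summable_geometric_of_lt_one (by linarith) (by linarith)).mul_left C
  · have := norm_Sm_pow hT m n 1 (Submonoid.one_mem _)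
    rwa [one_mul] at this

lemma norm_Rm' {T : ℕ → (E →L[ℂ] E)} {C : ℝ}
    (hT : ∀ P ∈ Submonoid.closure (Set.range T), ‖P‖ ≤ C) (m : ℕ) :
    ‖Rm T m‖ ≤ C * 2 ^ m := by
  have h1 := half_lt m
  have h2 : HasSum (fun n => C * (1 - (1 / 2 : ℝ) ^ m) ^ n) (C * (1 - (1 - (1 / 2 : ℝ) ^ m))⁻¹) :=
    (hasSum_geometric_of_lt_one (by linarith) (by linarith)).mul_left C
  have h3 : C * (1 - (1 - (1 / 2 : ℝ) ^ m))⁻¹ = C * 2 ^ m := by
    rw [sub_sub_cancel, one_div, inv_pow, inv_inv]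
  rw [h3] at h2
  unfold Rm
  refine tsum_of_norm_bounded h2 fun n => ?_
  have := norm_Sm_pow hT m n 1 (Submonoid.one_mem _)
  rwa [one_mul] at this

lemma Rm_sub' {T : ℕ → (E →L[ℂ] E)} {C : ℝ}
    (hT : ∀ P ∈ Submonoid.closure (Set.range T), ‖P‖ ≤ C) (hc : ∀ i j, Commute (T i) (T j))
    (m : ℕ) : Rm T (m + 1) - Rm T m
      = ((1 / 2 : ℂ) ^ (m + 1)) • (Rm T (m + 1) * (Rm T m * T m)) := by
  have hR : ∀ m, Rm T m * (1 - Sm T m) = 1 := fun m => (summable_Sm hT m).tsum_pow_mul_one_sub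
  have hL : ∀ m, (1 - Sm T m) * Rm T m = 1 := fun m => (summable_Sm hT m).one_sub_mul_tsum_pow
  have h1 : Rm T (m + 1) - Rm T m
      = Rm T (m + 1) * ((1 - Sm T m) - (1 - Sm T (m + 1))) * Rm T m := by
    rw [mul_sub, sub_mul, hR, one_mul, mul_assoc, hL, mul_one]
  rw [h1, Sm_succ, ← commute_Rm hc m m]
  have h2 : (1 - Sm T m) - (1 - (Sm T m + ((1 / 2 : ℂ) ^ (m + 1)) • T m))
      = ((1 / 2 : ℂ) ^ (m + 1)) • T m := by abel
  rw [h2, mul_smul_comm, smul_mul_assoc, mul_assoc]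

/-- If `T 0, T 1, …` commute and generate a bounded semigroup and `T m x` is small, then
`x = y - ρ y` where `ρ = ∑ 2^(-m-1) T m`. -/
theorem fac' (T : ℕ → (E →L[ℂ] E)) (hc : ∀ i j, Commute (T i) (T j)) (C : ℝ)
    (hT : ∀ P ∈ Submonoid.closure (Set.range T), ‖P‖ ≤ C) (x : E)
    (hx : ∀ m, ‖T m x‖ ≤ (1 / 4 : ℝ) ^ (m + 1)) :
    ∃ y : E, HasSum (fun m => ((1 / 2 : ℂ) ^ (m + 1)) • T m y) (y - x) ∧
      ∀ S : Submodule ℂ E, IsClosed (S : Set E) → x ∈ S → (∀ m, ∀ z ∈ S, T m z ∈ S) → y ∈ S := by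
  have hC0 : 0 ≤ C := (norm_nonneg _).trans (hT 1 (Submonoid.one_mem _))
  have hd : ∀ m, dist (Rm T m x) (Rm T (m + 1) x) ≤ (C ^ 2 * (1 / 4 : ℝ)) * (1 / 2 : ℝ) ^ m := by
    intro m
    rw [dist_comm, dist_eq_norm, ← sub_apply, Rm_sub' hT hc]
    rw [smul_apply, norm_smul, norm_half]
    have h1 : ‖(Rm T (m + 1) * (Rm T m * T m)) x‖
        ≤ (C * 2 ^ (m + 1)) * ((C * 2 ^ m) * (1 / 4 : ℝ) ^ (m + 1)) := by
      calc ‖(Rm T (m + 1) * (Rm T m * T m)) x‖ = ‖Rm T (m + 1) (Rm T m (T m x))‖ := rfl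
        _ ≤ ‖Rm T (m + 1)‖ * ‖Rm T m (T m x)‖ := ContinuousLinearMap.le_opNorm _ _
        _ ≤ ‖Rm T (m + 1)‖ * (‖Rm T m‖ * ‖T m x‖) := by
            gcongr
            exact ContinuousLinearMap.le_opNorm _ _
        _ ≤ _ := by
            gcongr
            · exact norm_Rm' hT _
            · exact norm_Rm' hT _
            · exact hx m
    calc (1 / 2 : ℝ) ^ (m + 1) * ‖(Rm T (m + 1) * (Rm T m * T m)) x‖
        ≤ (1 / 2 : ℝ) ^ (m + 1) * ((C * 2 ^ (m + 1)) * ((C * 2 ^ m) * (1 / 4 : ℝ) ^ (m + 1))) := by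
          gcongr
      _ = (C ^ 2 * (1 / 4 : ℝ)) * (1 / 2 : ℝ) ^ m := by
        have e1 : (1 / 2 : ℝ) ^ (m + 1) * 2 ^ (m + 1) = 1 := by
          rw [← mul_pow]
          norm_num
        have e2 : (2 : ℝ) ^ m * (1 / 4 : ℝ) ^ (m + 1) = (1 / 4 : ℝ) * (1 / 2 : ℝ) ^ m := by
          rw [pow_succ, ← mul_assoc, ← mul_pow]
          norm_num
          ring
        calc (1 / 2 : ℝ) ^ (m + 1) * ((C * 2 ^ (m + 1)) * ((C * 2 ^ m) * (1 / 4 : ℝ) ^ (m + 1)))
            = C ^ 2 * ((1 / 2 : ℝ) ^ (m + 1) * 2 ^ (m + 1))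
              * ((2 : ℝ) ^ m * (1 / 4 : ℝ) ^ (m + 1)) := by ring
          _ = _ := by rw [e1, e2]; ring
  have hcau : CauchySeq (fun m => Rm T m x) :=
    cauchySeq_of_le_geometric (1 / 2) (C ^ 2 * (1 / 4)) (by norm_num) hd
  obtain ⟨y, hy⟩ := cauchySeq_tendsto_of_complete hcau
  have hT1 : ∀ i, ‖T i‖ ≤ C := fun i => hT _ (Submonoid.subset_closure ⟨i, rfl⟩)
  have hsum : Summable (fun k => ((1 / 2 : ℂ) ^ (k + 1)) • T k) := by
    refine Summable.of_norm_bounded (g := fun k => (1 / 2 : ℝ) ^ (k + 1) * C) ?_ fun k => ?_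
    · exact ((summable_nat_add_iff 1).2
        (summable_geometric_of_lt_one (by norm_num) (by norm_num))).mul_right C
    · rw [norm_smul, norm_half]
      exact mul_le_mul_of_nonneg_left (hT1 k) (by positivity)
  obtain ⟨ρ, hρ⟩ := hsum
  have hS : Tendsto (fun m => Sm T m) atTop (𝓝 ρ) := hρ.tendsto_sum_nat
  have hSy : Tendsto (fun m => Sm T m (Rm T m x)) atTop (𝓝 (ρ y)) := by
    have := hS.prodMk_nhds hy
    have hcont : Continuous fun p : (E →L[ℂ] E) × E => p.1 p.2 :=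
      isBoundedBilinearMap_apply.continuous
    exact (hcont.tendsto (ρ, y)).comp this
  have hxy : y - ρ y = x := by
    have h1 : Tendsto (fun m => Rm T m x - Sm T m (Rm T m x)) atTop (𝓝 (y - ρ y)) := hy.sub hSy
    have h2 : (fun m => Rm T m x - Sm T m (Rm T m x)) = fun _ => x := by
      funext m
      have := congrArg (fun A : E →L[ℂ] E => A x) (summable_Sm hT m).one_sub_mul_tsum_pow
      exact this
    rw [h2] at h1
    exact tendsto_nhds_unique h1 tendsto_const_nhds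
  refine ⟨y, ?_, ?_⟩
  · have h1 := hρ.mapL (ContinuousLinearMap.apply ℂ E y)
    have h2 : y - x = (ContinuousLinearMap.apply ℂ E y) ρ := by
      rw [← hxy]
      change y - (y - ρ y) = ρ y
      abel
    rw [h2]
    exact h1
  · intro S hS hxS hTS
    have hSm : ∀ m, ∀ z ∈ S, Sm T m z ∈ S := by
      intro m z hz
      unfold Sm
      rw [sum_apply]
      exact Submodule.sum_mem _ fun k _ => by
        rw [smul_apply]
        exact S.smul_mem _ (hTS k z hz)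
    have hpow : ∀ m n, ∀ z ∈ S, ((Sm T m) ^ n) z ∈ S := by
      intro m n
      induction n with
      | zero => intro z hz; simpa using hz
      | succ n ih =>
        intro z hz
        rw [pow_succ]
        exact ih _ (hSm m z hz)
    have hR : ∀ m, Rm T m x ∈ S := by
      intro m
      have h1 : HasSum (fun n : ℕ => (Sm T m) ^ n) (Rm T m) := (summable_Sm hT m).hasSum
      have h2 := h1.mapL (ContinuousLinearMap.apply ℂ E x)
      refine hS.mem_of_tendsto h2 (Eventually.of_forall fun s => ?_)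
      exact Submodule.sum_mem _ fun n _ => hpow m n x hxS
    exact hS.mem_of_tendsto hy (Eventually.of_forall hR)

end

end Pool.Agent.H640R3.CE
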