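import Mathlib
import Pool.Agent.H640R3.CD.Two
import Pool.Agent.H640R3.CE.Fac2

set_option autoImplicit false

/-!
# Factorisation with Cesàro means, and the two-sided decomposition, power bounded elements
-/

namespace Pool.Agent.H640R3.CE

open Filter Topology
open Pool.Agent.H640R3.CD

noncomputable section

variable {A : Type*} [NormedRing A] [NormedAlgebra ℂ A]

lemma norm_kap' {a : A} {C : ℝ} (ha : ∀ k, ‖a ^ k‖ ≤ C) (n : ℕ) : ‖kap a n‖ ≤ C := by
  unfold kap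
  rw [norm_smul, norm_inv_succ]
  have h1 : ‖∑ k ∈ Finset.range (n + 1), a ^ k‖ ≤ ((n : ℝ) + 1) * C := by
    refine (norm_sum_le_of_le _ fun k _ => ha k).trans ?_
    simp
  have h2 : (0 : ℝ) < (n : ℝ) + 1 := by positivity
  calc ((n : ℝ) + 1)⁻¹ * ‖∑ k ∈ Finset.range (n + 1), a ^ k‖
      ≤ ((n : ℝ) + 1)⁻¹ * (((n : ℝ) + 1) * C) := by gcongr
    _ = C := by rw [← mul_assoc, inv_mul_cancel₀ h2.ne', one_mul]

lemma norm_one_sub' {a : A} {C : ℝ} (ha : ∀ k, ‖a ^ k‖ ≤ C) (n : ℕ) : ‖1 - a ^ n‖ ≤ 2 * C := by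
  refine (norm_sub_le _ _).trans ?_
  have h1 := ha n
  have h0 := ha 0
  rw [pow_zero] at h0
  linarith

lemma kap_mul_one_sub' {a : A} {C : ℝ} (ha : ∀ k, ‖a ^ k‖ ≤ C) (M n : ℕ) :
    ‖kap a n * (1 - a ^ M)‖ ≤ 2 * C * (M * C) * ((n : ℝ) + 1)⁻¹ := by
  have hC : 0 ≤ C := (norm_nonneg _).trans (ha 0)
  have h1 : (∑ k ∈ Finset.range (n + 1), a ^ k) * (1 - a ^ M)
      = (1 - a ^ (n + 1)) * ∑ k ∈ Finset.range M, a ^ k := by
    rw [← mul_neg_geom_sum a M, ← mul_assoc, geom_sum_mul_neg]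
  unfold kap
  rw [smul_mul_assoc, h1, norm_smul, norm_inv_succ, mul_comm]
  have h2 : ‖(1 - a ^ (n + 1)) * ∑ k ∈ Finset.range M, a ^ k‖ ≤ 2 * C * (M * C) := by
    refine (norm_mul_le _ _).trans ?_
    have h3 := norm_one_sub' ha (n + 1)
    have h4 : ‖∑ k ∈ Finset.range M, a ^ k‖ ≤ M * C := by
      refine (norm_sum_le_of_le _ fun k _ => ha k).trans ?_
      simp
    gcongr
  gcongr

/-- bound on the semigroup generated by Cesaro means -/
lemma closure_bound {X : Type*} [NormedAddCommGroup X] [NormedSpace ℂ X] (U : ℕ → (X →L[ℂ] X))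
    (hU : ∀ i j, U i * U j = U (i + j)) (hU0 : U 0 = 1) {C : ℝ} (hC : ∀ k, ‖U k‖ ≤ C)
    (K : ℕ → (X →L[ℂ] X)) (n : ℕ → ℕ)
    (hK : ∀ m, K m = ((n m : ℂ) + 1)⁻¹ • ∑ k ∈ Finset.range (n m + 1), U k) :
    ∀ P ∈ Submonoid.closure (Set.range K), ‖P‖ ≤ C := by
  have key : ∀ P ∈ Submonoid.closure (Set.range K), ∀ k, ‖P * U k‖ ≤ C := by
    intro P hP
    induction hP using Submonoid.closure_induction_right with
    | one =>
      intro k
      rw [one_mul]
      exact hC k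
    | mul_right x hx y hy ih =>
      obtain ⟨m, rfl⟩ := hy
      intro k
      have e1 : x * K m * U k
          = ((n m : ℂ) + 1)⁻¹ • ∑ i ∈ Finset.range (n m + 1), x * U (i + k) := by
        rw [hK, mul_smul_comm, smul_mul_assoc, Finset.mul_sum, Finset.sum_mul]
        congr 1
        refine Finset.sum_congr rfl fun i _ => ?_
        rw [mul_assoc, hU]
      rw [e1, norm_smul, norm_inv_succ]
      have h1 : ‖∑ i ∈ Finset.range (n m + 1), x * U (i + k)‖ ≤ ((n m : ℝ) + 1) * C := by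
        refine (norm_sum_le_of_le _ fun i _ => ih (i + k)).trans ?_
        simp
      have h2 : (0 : ℝ) < (n m : ℝ) + 1 := by positivity
      calc ((n m : ℝ) + 1)⁻¹ * ‖∑ i ∈ Finset.range (n m + 1), x * U (i + k)‖
          ≤ ((n m : ℝ) + 1)⁻¹ * (((n m : ℝ) + 1) * C) := by gcongr
        _ = C := by rw [← mul_assoc, inv_mul_cancel₀ h2.ne', one_mul]
  intro P hP
  have := key P hP 0
  rwa [hU0, mul_one] at this

variable [CompleteSpace A]

/-- the general factorisation statement: `M` is left or right multiplication -/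
theorem gen_fac' (M : A →L[ℂ] (A →L[ℂ] A)) (hM1 : ∀ u, ‖M u‖ ≤ ‖u‖) (hM0 : M 1 = 1)
    (hMc : ∀ u v, Commute u v → Commute (M u) (M v)) (a x : A) (C : ℝ) (ha : ∀ k, ‖a ^ k‖ ≤ C)
    (hMm : ∀ i j, M (a ^ i) * M (a ^ j) = M (a ^ (i + j)))
    (hx : Tendsto (fun n => M (kap a n) x) atTop (𝓝 0)) :
    ∃ ρ y : A, x = y - M ρ y ∧
      (∀ ψ : A →L[ℂ] ℂ, (∀ k, ψ (a ^ k) = ψ 1) → ψ ρ = ψ 1) ∧
      ∀ S : Submodule ℂ A, IsClosed (S : Set A) → x ∈ S → (∀ c, ∀ z ∈ S, M c z ∈ S) → y ∈ S := by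
  have h1 : ∀ m : ℕ, ∃ n : ℕ, ‖M (kap a n) x‖ ≤ (1 / 4 : ℝ) ^ (m + 1) := by
    intro m
    have h2 := (tendsto_zero_iff_norm_tendsto_zero.1 hx).eventually
      (gt_mem_nhds (show (0 : ℝ) < (1 / 4 : ℝ) ^ (m + 1) by positivity))
    obtain ⟨n, hn⟩ := h2.exists
    exact ⟨n, hn.le⟩
  choose n hn using h1
  have hcl := closure_bound (fun k => M (a ^ k)) hMm (by rw [pow_zero, hM0])
    (fun k => (hM1 _).trans (ha k)) (fun m => M (kap a (n m))) n (fun m => by
      unfold kap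
      rw [map_smul, map_sum])
  obtain ⟨y, hy, hyS⟩ := fac' (fun m => M (kap a (n m)))
    (fun i j => hMc _ _ (commute_kap a _ _)) C hcl x hn
  have hsum : Summable (fun m => ((1 / 2 : ℂ) ^ (m + 1)) • kap a (n m)) := by
    refine Summable.of_norm_bounded (g := fun k => (1 / 2 : ℝ) ^ (k + 1) * C) ?_ fun k => ?_
    · exact ((summable_nat_add_iff 1).2
        (summable_geometric_of_lt_one (by norm_num) (by norm_num))).mul_right C
    · rw [norm_smul, norm_half]
      exact mul_le_mul_of_nonneg_left (norm_kap' ha _) (by positivity)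
  obtain ⟨ρ, hρ⟩ := hsum
  refine ⟨ρ, y, ?_, ?_, ?_⟩
  · have h2 := (hρ.mapL M).mapL (ContinuousLinearMap.apply ℂ A y)
    have h3 : (fun m => ContinuousLinearMap.apply ℂ A y (M (((1 / 2 : ℂ) ^ (m + 1)) • kap a (n m))))
        = fun m => ((1 / 2 : ℂ) ^ (m + 1)) • M (kap a (n m)) y := by
      funext m
      rw [map_smul, map_smul]
      rfl
    rw [h3] at h2
    have h4 : M ρ y = y - x := h2.unique hy
    rw [h4]
    abel
  · intro ψ hψ
    have h2 := hρ.mapL ψ
    have h3 : ∀ m, ψ (kap a (n m)) = ψ 1 := by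
      intro m
      unfold kap
      rw [map_smul, map_sum]
      simp only [hψ]
      rw [Finset.sum_const, Finset.card_range, nsmul_eq_mul, smul_eq_mul]
      push_cast
      have : ((n m : ℂ) + 1) ≠ 0 := by
        exact_mod_cast (Nat.succ_ne_zero (n m))
      rw [← mul_assoc, inv_mul_cancel₀ this, one_mul]
    have h5 : (fun m => ψ (((1 / 2 : ℂ) ^ (m + 1)) • kap a (n m)))
        = fun m => ((1 / 2 : ℂ) * (1 / 2 : ℂ) ^ m) * ψ 1 := by
      funext m
      rw [map_smul, h3, smul_eq_mul, pow_succ, mul_comm ((1 / 2 : ℂ) ^ m)]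
    rw [h5] at h2
    have h6 := geo_half.mul_right (ψ 1)
    rw [one_mul] at h6
    exact h2.unique h6
  · intro S hS hxS hM
    exact hyS S hS hxS fun m z hz => hM _ z hz

/-- left factorisation -/
theorem left_fac' (a x : A) (C : ℝ) (ha : ∀ k, ‖a ^ k‖ ≤ C)
    (hx : Tendsto (fun n => kap a n * x) atTop (𝓝 0)) :
    ∃ ρ y : A, x = (1 - ρ) * y ∧
      (∀ ψ : A →L[ℂ] ℂ, (∀ k, ψ (a ^ k) = ψ 1) → ψ ρ = ψ 1) ∧
      ∀ S : Submodule ℂ A, IsClosed (S : Set A) → x ∈ S → (∀ c, ∀ z ∈ S, c * z ∈ S) → y ∈ S := by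
  obtain ⟨ρ, y, h1, h2, h3⟩ := gen_fac' (ContinuousLinearMap.mul ℂ A)
    (fun u => ContinuousLinearMap.opNorm_mul_apply_le ℂ A u) (by
      ext z
      change 1 * z = z
      rw [one_mul]) (fun u v huv => by
      ext z
      change u * (v * z) = v * (u * z)
      rw [← mul_assoc, ← mul_assoc, huv.eq]) a x C ha (fun i j => by
      ext z
      change a ^ i * (a ^ j * z) = a ^ (i + j) * z
      rw [pow_add, mul_assoc]) hx
  refine ⟨ρ, y, ?_, h2, h3⟩
  rw [sub_mul, one_mul]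
  exact h1

/-- right factorisation -/
theorem right_fac' (a x : A) (C : ℝ) (ha : ∀ k, ‖a ^ k‖ ≤ C)
    (hx : Tendsto (fun n => x * kap a n) atTop (𝓝 0)) :
    ∃ ρ y : A, x = y * (1 - ρ) ∧
      (∀ ψ : A →L[ℂ] ℂ, (∀ k, ψ (a ^ k) = ψ 1) → ψ ρ = ψ 1) ∧
      ∀ S : Submodule ℂ A, IsClosed (S : Set A) → x ∈ S → (∀ c, ∀ z ∈ S, z * c ∈ S) → y ∈ S := by
  obtain ⟨ρ, y, h1, h2, h3⟩ := gen_fac' (ContinuousLinearMap.mul ℂ A).flip
    (fun u => by
      refine ContinuousLinearMap.opNorm_le_bound _ (norm_nonneg _) fun z => ?_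
      change ‖z * u‖ ≤ ‖u‖ * ‖z‖
      rw [mul_comm ‖u‖]
      exact norm_mul_le _ _) (by
      ext z
      change z * 1 = z
      rw [mul_one]) (fun u v huv => by
      ext z
      change z * v * u = z * u * v
      rw [mul_assoc, mul_assoc, huv.eq]) a x C ha (fun i j => by
      ext z
      change z * a ^ j * a ^ i = z * a ^ (i + j)
      rw [mul_assoc, ← pow_add, add_comm]) hx
  refine ⟨ρ, y, ?_, h2, h3⟩
  rw [mul_sub, mul_one]
  exact h1

/-- The two-sided decomposition. -/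
theorem two_sided' (a b : A) (C : ℝ) (ha : ∀ k, ‖a ^ k‖ ≤ C) (hb : ∀ k, ‖b ^ k‖ ≤ C) (fs : ℕ → A)
    (hs : ∀ j, fs (j + 1) = (1 / 2 : ℂ) • (a ^ (2 ^ j) * fs j + fs j * b ^ (2 ^ j)))
    (D θ : ℝ) (hθ0 : 0 ≤ θ) (hθ1 : θ < 1) (hn : ∀ j, ‖fs j‖ ≤ D * θ ^ j) :
    ∃ r l : A, fs 0 = r + l ∧ Tendsto (fun n => kap a n * r) atTop (𝓝 0) ∧
      Tendsto (fun n => l * kap b n) atTop (𝓝 0) ∧
      ∀ S : Submodule ℂ A, IsClosed (S : Set A) → fs 0 ∈ S → (∀ z ∈ S, a * z ∈ S) →
        (∀ z ∈ S, z * b ∈ S) → r ∈ S ∧ l ∈ S := by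
  have hC : 0 ≤ C := (norm_nonneg _).trans (ha 0)
  have hgeo : Summable (fun j : ℕ => D * θ ^ j) :=
    (summable_geometric_of_lt_one hθ0 hθ1).mul_left D
  have hfs : Summable (fun j => ‖fs j‖) :=
    Summable.of_nonneg_of_le (fun _ => norm_nonneg _) hn hgeo
  have hfsC : Summable (fun j => C * ‖fs j‖) := hfs.mul_left C
  have hhalf : ‖(1 / 2 : ℂ)‖ = 1 / 2 := by norm_num
  have hbr : ∀ j, ‖(1 / 2 : ℂ) • ((1 - a ^ (2 ^ j)) * fs j)‖ ≤ C * ‖fs j‖ := by
    intro j
    rw [norm_smul, hhalf]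
    have := (norm_mul_le (1 - a ^ (2 ^ j)) (fs j)).trans
      (mul_le_mul_of_nonneg_right (norm_one_sub' ha (2 ^ j)) (norm_nonneg _))
    linarith
  have hbl : ∀ j, ‖(1 / 2 : ℂ) • (fs j * (1 - b ^ (2 ^ j)))‖ ≤ C * ‖fs j‖ := by
    intro j
    rw [norm_smul, hhalf]
    have := (norm_mul_le (fs j) (1 - b ^ (2 ^ j))).trans
      (mul_le_mul_of_nonneg_left (norm_one_sub' hb (2 ^ j)) (norm_nonneg _))
    linarith
  have hsr : Summable (fun j => (1 / 2 : ℂ) • ((1 - a ^ (2 ^ j)) * fs j)) :=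
    Summable.of_norm_bounded hfsC hbr
  have hsl : Summable (fun j => (1 / 2 : ℂ) • (fs j * (1 - b ^ (2 ^ j)))) :=
    Summable.of_norm_bounded hfsC hbl
  obtain ⟨r, hr⟩ := hsr
  obtain ⟨l, hl⟩ := hsl
  refine ⟨r, l, ?_, ?_, ?_, ?_⟩
  · have h2 := (hr.add hl).tendsto_sum_nat
    have h3 : (fun n => ∑ j ∈ Finset.range n, ((1 / 2 : ℂ) • ((1 - a ^ (2 ^ j)) * fs j)
        + (1 / 2 : ℂ) • (fs j * (1 - b ^ (2 ^ j))))) = fun n => fs 0 - fs n := by
      funext n
      rw [← Finset.sum_range_sub']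
      refine Finset.sum_congr rfl fun j _ => ?_
      rw [hs j]
      exact tele_step2 _ _ _
    rw [h3] at h2
    have h4 : Tendsto (fun n => fs 0 - fs n) atTop (𝓝 (fs 0 - 0)) := by
      refine tendsto_const_nhds.sub ?_
      exact tendsto_zero_iff_norm_tendsto_zero.2 hfs.tendsto_atTop_zero
    rw [sub_zero] at h4
    exact tendsto_nhds_unique h4 h2
  · have h2 : ∀ n, kap a n * r = ∑' j, kap a n * ((1 / 2 : ℂ) • ((1 - a ^ (2 ^ j)) * fs j)) :=
      fun n => (hr.mul_left _).tsum_eq.symm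
    have h3 : Tendsto (fun n => ∑' j, kap a n * ((1 / 2 : ℂ) • ((1 - a ^ (2 ^ j)) * fs j))) atTop
        (𝓝 (∑' _ : ℕ, (0 : A))) := by
      refine tendsto_tsum_of_dominated_convergence (hfsC.mul_left C) (fun j => ?_)
        (Eventually.of_forall fun n j => ?_)
      · refine squeeze_zero_norm (a := fun n : ℕ =>
          2 * C * (((2 ^ j : ℕ) : ℝ) * C) * ((n : ℝ) + 1)⁻¹ * ‖fs j‖) (fun n => ?_) ?_
        · rw [mul_smul_comm, ← mul_assoc, norm_smul, hhalf]
          have := (norm_mul_le (kap a n * (1 - a ^ (2 ^ j))) (fs j)).trans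
            (mul_le_mul_of_nonneg_right (kap_mul_one_sub' ha (2 ^ j) n) (norm_nonneg _))
          have h5 : 0 ≤ ‖kap a n * (1 - a ^ (2 ^ j)) * fs j‖ := norm_nonneg _
          linarith
        · have h6 : Tendsto (fun n : ℕ => ((n : ℝ) + 1)⁻¹) atTop (𝓝 0) := by
            have := tendsto_one_div_add_atTop_nhds_zero_nat (𝕜 := ℝ)
            simpa [one_div] using this
          have h7 := (h6.const_mul (2 * C * (((2 ^ j : ℕ) : ℝ) * C))).mul_const ‖fs j‖
          rw [mul_zero, zero_mul] at h7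
          exact h7
      · refine (norm_mul_le _ _).trans ?_
        exact mul_le_mul (norm_kap' ha n) (hbr j) (norm_nonneg _) hC
    rw [tsum_zero] at h3
    exact h3.congr fun n => (h2 n).symm
  · have h2 : ∀ n, l * kap b n = ∑' j, ((1 / 2 : ℂ) • (fs j * (1 - b ^ (2 ^ j)))) * kap b n :=
      fun n => (hl.mul_right _).tsum_eq.symm
    have h3 : Tendsto (fun n => ∑' j, ((1 / 2 : ℂ) • (fs j * (1 - b ^ (2 ^ j)))) * kap b n) atTop
        (𝓝 (∑' _ : ℕ, (0 : A))) := by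
      refine tendsto_tsum_of_dominated_convergence (hfsC.mul_right C) (fun j => ?_)
        (Eventually.of_forall fun n j => ?_)
      · refine squeeze_zero_norm (a := fun n : ℕ =>
          2 * C * (((2 ^ j : ℕ) : ℝ) * C) * ((n : ℝ) + 1)⁻¹ * ‖fs j‖) (fun n => ?_) ?_
        · rw [smul_mul_assoc, mul_assoc, norm_smul, hhalf, ← (commute_kap_pow b (2 ^ j) n).eq]
          have := (norm_mul_le (fs j) (kap b n * (1 - b ^ (2 ^ j)))).trans
            (mul_le_mul_of_nonneg_left (kap_mul_one_sub' hb (2 ^ j) n) (norm_nonneg _))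
          have h5 : 0 ≤ ‖fs j * (kap b n * (1 - b ^ (2 ^ j)))‖ := norm_nonneg _
          linarith
        · have h6 : Tendsto (fun n : ℕ => ((n : ℝ) + 1)⁻¹) atTop (𝓝 0) := by
            have := tendsto_one_div_add_atTop_nhds_zero_nat (𝕜 := ℝ)
            simpa [one_div] using this
          have h7 := (h6.const_mul (2 * C * (((2 ^ j : ℕ) : ℝ) * C))).mul_const ‖fs j‖
          rw [mul_zero, zero_mul] at h7
          exact h7
      · refine (norm_mul_le _ _).trans ?_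
        exact mul_le_mul (hbl j) (norm_kap' hb n) (norm_nonneg _) (by positivity)
    rw [tsum_zero] at h3
    exact h3.congr fun n => (h2 n).symm
  · intro S hS h0 hSl hSr
    have hSl' : ∀ k, ∀ z ∈ S, a ^ k * z ∈ S := by
      intro k
      induction k with
      | zero => intro z hz; rwa [pow_zero, one_mul]
      | succ k ih =>
        intro z hz
        rw [pow_succ, mul_assoc]
        exact ih _ (hSl z hz)
    have hSr' : ∀ k, ∀ z ∈ S, z * b ^ k ∈ S := by
      intro k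
      induction k with
      | zero => intro z hz; rwa [pow_zero, mul_one]
      | succ k ih =>
        intro z hz
        rw [pow_succ, ← mul_assoc]
        exact hSr _ (ih z hz)
    have hf : ∀ j, fs j ∈ S := by
      intro j
      induction j with
      | zero => exact h0
      | succ j ih =>
        rw [hs]
        exact S.smul_mem _ (S.add_mem (hSl' _ _ ih) (hSr' _ _ ih))
    constructor
    · exact hS.mem_of_tendsto hr (Eventually.of_forall fun s =>
        Submodule.sum_mem _ fun j _ => S.smul_mem _ (by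
          rw [sub_mul, one_mul]
          exact S.sub_mem (hf j) (hSl' _ _ (hf j))))
    · exact hS.mem_of_tendsto hl (Eventually.of_forall fun s =>
        Submodule.sum_mem _ fun j _ => S.smul_mem _ (by
          rw [mul_sub, mul_one]
          exact S.sub_mem (hf j) (hSr' _ _ (hf j))))

end

end Pool.Agent.H640R3.CE
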