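import Mathlib
import Pool.Agent.H640R3.CD.LemB
import Pool.Agent.H640R3.CD.Main
import Pool.Agent.H640R3.CE.Two2
import Pool.Agent.H640R3.CE.Dat

set_option autoImplicit false

/-!
# Closed ideals of finite codimension in the convolution algebra of a discrete group
-/

namespace Pool.Agent.H640R3.CE

open Filter Topology
open Pool.Agent.H640R3.CD
open Matrix

noncomputable section

section null

variable {A κ : Type*} [NormedRing A] [NormedAlgebra ℂ A]

/-- continuous functionals for the normed structure -/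
abbrev CL (A : Type*) [NormedRing A] [NormedAlgebra ℂ A] := A →L[ℂ] ℂ

/-- common kernel of a family of functionals -/
def Nul (φ : κ → CL A) : Submodule ℂ A := ⨅ k, LinearMap.ker (φ k : A →ₗ[ℂ] ℂ)

lemma mem_Nul {φ : κ → CL A} {x : A} : x ∈ Nul φ ↔ ∀ k, φ k x = 0 := by
  unfold Nul
  rw [Submodule.mem_iInf]
  rfl

lemma isClosed_Nul (φ : κ → CL A) : IsClosed (Nul φ : Set A) := by
  unfold Nul
  rw [Submodule.coe_iInf]
  exact isClosed_iInter fun k => (φ k).isClosed_ker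

/-- the iteration -/
def fseq2 (a b f : A) : ℕ → A
  | 0 => f
  | j + 1 => (1 / 2 : ℂ) • (a ^ (2 ^ j) * fseq2 a b f j + fseq2 a b f j * b ^ (2 ^ j))

end null

variable {G : Type} [Group G] {ι : Type} [Fintype ι] [DecidableEq ι]

attribute [local instance] Matrix.linftyOpNormedRing Matrix.linftyOpNormedAlgebra

instance instCompleteM : CompleteSpace (Matrix ι ι (L G)) := by
  have : CompleteSpace (ι → ι → L G) := inferInstance
  exact this

/-- entry -/
def ent (i j : ι) : Matrix ι ι (L G) →L[ℂ] L G :=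
  LinearMap.mkContinuous
    { toFun := fun F => F i j
      map_add' := fun _ _ => rfl
      map_smul' := fun _ _ => rfl } 1 (fun F => by
        rw [one_mul]
        change ‖F i j‖ ≤ ‖F‖
        rw [Matrix.linfty_opNorm_def]
        have h1 : ‖F i j‖₊ ≤ ∑ j, ‖F i j‖₊ :=
          Finset.single_le_sum (f := fun j => ‖F i j‖₊) (fun _ _ => zero_le) (Finset.mem_univ j)
        have h2 : ∑ j, ‖F i j‖₊ ≤ (Finset.univ : Finset ι).sup fun i => ∑ j, ‖F i j‖₊ :=
          Finset.le_sup (f := fun i => ∑ j, ‖F i j‖₊) (Finset.mem_univ i)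
        exact_mod_cast h1.trans h2)

lemma ent_apply (i j : ι) (F : Matrix ι ι (L G)) : ent i j F = F i j := rfl

lemma norm_le_of_ent {F : Matrix ι ι (L G)} {C : ℝ} (hC : 0 ≤ C) (h : ∀ i j, ‖F i j‖ ≤ C) :
    ‖F‖ ≤ Fintype.card ι * C := by
  rw [Matrix.linfty_opNorm_def]
  obtain ⟨C', rfl⟩ : ∃ C' : NNReal, C = C' := ⟨⟨C, hC⟩, rfl⟩
  have h3 : ((Finset.univ : Finset ι).sup fun i => ∑ j, ‖F i j‖₊) ≤ Fintype.card ι * C' := by
    refine Finset.sup_le fun i _ => ?_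
    refine (Finset.sum_le_card_nsmul _ _ C' fun j _ => ?_).trans ?_
    · exact_mod_cast h i j
    · simp
  exact_mod_cast h3

/-- the functional measuring the columns -/
def phi2 (s : ι → L G) (c : ι → (L G →L[ℂ] ℂ)) (p : ι × ι) : CL (Matrix ι ι (L G)) :=
  (c p.2).comp (∑ j, ((mulL : L G →L[ℂ] L G →L[ℂ] L G).flip (s j)).comp (ent p.1 j))

/-- the functional measuring the rows -/
def phi1 (s : ι → L G) (c : ι → (L G →L[ℂ] ℂ)) (p : ι × ι) : CL (Matrix ι ι (L G)) :=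
  (c p.2).comp (∑ i, ((mulL : L G →L[ℂ] L G →L[ℂ] L G) (s i)).comp (ent i p.1))

lemma phi2_apply (s : ι → L G) (c : ι → (L G →L[ℂ] ℂ)) (p : ι × ι) (F : Matrix ι ι (L G)) :
    phi2 s c p F = c p.2 ((F *ᵥ s) p.1) := by
  unfold phi2
  rw [ContinuousLinearMap.comp_apply, _root_.sum_apply]
  rfl

lemma phi1_apply (s : ι → L G) (c : ι → (L G →L[ℂ] ℂ)) (p : ι × ι) (F : Matrix ι ι (L G)) :
    phi1 s c p F = c p.2 ((s ᵥ* F) p.1) := by
  unfold phi1
  rw [ContinuousLinearMap.comp_apply, _root_.sum_apply]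
  rfl

variable {I : Submodule ℂ (L G)} {s : ι → L G} {c : ι → (L G →L[ℂ] ℂ)}

lemma mem2 (h : Dat I s c) {F : Matrix ι ι (L G)} :
    F ∈ Nul (phi2 s c) ↔ ∀ k, (F *ᵥ s) k ∈ I := by
  rw [mem_Nul]
  constructor
  · intro hF k
    refine h.mem fun l => ?_
    have := hF (k, l)
    rwa [phi2_apply] at this
  · intro hF p
    rw [phi2_apply]
    exact h.zero _ _ (hF _)

lemma mem1 (h : Dat I s c) {F : Matrix ι ι (L G)} :
    F ∈ Nul (phi1 s c) ↔ ∀ k, (s ᵥ* F) k ∈ I := by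
  rw [mem_Nul]
  constructor
  · intro hF k
    refine h.mem fun l => ?_
    have := hF (k, l)
    rwa [phi1_apply] at this
  · intro hF p
    rw [phi1_apply]
    exact h.zero _ _ (hF _)

lemma col_left (h : Dat I s c) {F : Matrix ι ι (L G)} (hF : ∀ k, (F *ᵥ s) k ∈ I)
    (A : Matrix ι ι (L G)) (k : ι) : ((A * F) *ᵥ s) k ∈ I := by
  rw [← Matrix.mulVec_mulVec]
  exact mulVec_mem h hF A k

lemma col_right (h : Dat I s c) {F : Matrix ι ι (L G)} (hF : ∀ k, (F *ᵥ s) k ∈ I)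
    {B : Matrix ι ι (L G)} (hB : FixR I s B) (k : ι) : ((F * B) *ᵥ s) k ∈ I := by
  have e1 : ((F * B) *ᵥ s) k = (F *ᵥ (B *ᵥ s - s)) k + (F *ᵥ s) k := by
    rw [Matrix.mulVec_sub, Matrix.mulVec_mulVec, Pi.sub_apply]
    abel
  rw [e1]
  exact I.add_mem (mulVec_mem h (fun m => hB m) F k) (hF k)

lemma row_right (h : Dat I s c) {F : Matrix ι ι (L G)} (hF : ∀ k, (s ᵥ* F) k ∈ I)
    (B : Matrix ι ι (L G)) (k : ι) : (s ᵥ* (F * B)) k ∈ I := by
  rw [← Matrix.vecMul_vecMul]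
  exact vecMul_mem h hF B k

lemma row_left (h : Dat I s c) {F : Matrix ι ι (L G)} (hF : ∀ k, (s ᵥ* F) k ∈ I)
    {A : Matrix ι ι (L G)} (hA : FixL I s A) (k : ι) : (s ᵥ* (A * F)) k ∈ I := by
  have e1 : (s ᵥ* (A * F)) k = ((s ᵥ* A - s) ᵥ* F) k + (s ᵥ* F) k := by
    rw [Matrix.sub_vecMul, ← Matrix.vecMul_vecMul, Pi.sub_apply]
    abel
  rw [e1]
  exact I.add_mem (vecMul_mem h (fun m => hA m) F k) (hF k)

lemma dot_mem {u v : ι → L G} (hu : ∀ k, u k ∈ I) (hv : ∀ k, v k ∈ I) : u ⬝ᵥ v ∈ sqI I := by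
  change ∑ k, u k * v k ∈ sqI I
  exact Submodule.sum_mem _ fun k _ => mem_sqI (hu k) (hv k)

/-- the geometric decay of the iteration -/
theorem decay (h : Dat I s c) (f : L G) (hf0 : f ≠ 0) (μ : G → ℝ) (hμ : ∀ x, μ x = ‖f x‖ / ‖f‖)
    (hμ0 : ∀ x, 0 ≤ μ x) (hμs : HasSum μ 1) (a b : Matrix ι ι (L G))
    (ha : ∀ x, evM x a = (μ x : ℂ) • PP s c x) (hb : ∀ x, evM x b = (μ x : ℂ) • TT s c x⁻¹)
    (ε : Matrix ι ι ℂ) (F0 : Matrix ι ι (L G)) (hF0 : ∀ i j, F0 i j = ε i j • f)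
    (hFI : ∀ k, (F0 *ᵥ s) k ∈ I) (hbfix : FixR I s b) :
    ∃ D θ : ℝ, 0 ≤ θ ∧ θ < 1 ∧ ∀ j, ‖fseq2 a b F0 j‖ ≤ D * θ ^ j := by
  have hN : 0 < ‖f‖ := norm_pos_iff.2 hf0
  obtain ⟨K, hK0, hKP, hKT⟩ := exists_bound s c
  obtain ⟨E, hE0, hE⟩ : ∃ E : ℝ, 0 ≤ E ∧ ∀ i j, ‖ε i j‖ ≤ E := by
    refine ⟨∑ i, ∑ j, ‖ε i j‖, by positivity, fun i j => ?_⟩
    have h2 : ‖ε i j‖ ≤ ∑ j, ‖ε i j‖ :=
      Finset.single_le_sum (f := fun j => ‖ε i j‖) (fun _ _ => norm_nonneg _) (Finset.mem_univ j)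
    refine h2.trans ?_
    exact Finset.single_le_sum (f := fun i => ∑ j, ‖ε i j‖) (fun _ _ => by positivity)
          (Finset.mem_univ i)
  have hP' : ∀ g k : G, (fun x => TT s c x⁻¹) (g * k) = (fun x => TT s c x⁻¹) g * (fun x => TT s c x⁻¹) k := by
    intro g k
    change TT s c (g * k)⁻¹ = TT s c g⁻¹ * TT s c k⁻¹
    rw [_root_.mul_inv_rev, h.T_mul]
  -- powers
  have hpa : ∀ j x, evM x (a ^ (2 ^ j)) = (museq μ j x : ℂ) • PP s c x := by
    intro j
    induction j with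
    | zero =>
      intro x
      rw [pow_zero, pow_one]
      exact ha x
    | succ j ih =>
      intro x
      have e1 : a ^ (2 ^ (j + 1)) = a ^ (2 ^ j) * a ^ (2 ^ j) := by
        rw [← pow_add]
        congr 1
        ring
      rw [e1]
      exact museq_tw (PP s c) h.P_mul (museq_prop hμ0 hμs j).1 (museq_prop hμ0 hμs j).2 _ ih x
  have hpb : ∀ j x, evM x (b ^ (2 ^ j)) = (museq μ j x : ℂ) • TT s c x⁻¹ := by
    intro j
    induction j with
    | zero =>
      intro x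
      rw [pow_zero, pow_one]
      exact hb x
    | succ j ih =>
      intro x
      have e1 : b ^ (2 ^ (j + 1)) = b ^ (2 ^ j) * b ^ (2 ^ j) := by
        rw [← pow_add]
        congr 1
        ring
      rw [e1]
      exact museq_tw (fun x => TT s c x⁻¹) hP' (museq_prop hμ0 hμs j).1
        (museq_prop hμ0 hμs j).2 _ ih x
  have hI : ∀ j k, ((fseq2 a b F0 j) *ᵥ s) k ∈ I := by
    intro j
    induction j with
    | zero => exact hFI
    | succ j ih =>
      intro k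
      change (((1 / 2 : ℂ) • (a ^ (2 ^ j) * fseq2 a b F0 j
        + fseq2 a b F0 j * b ^ (2 ^ j))) *ᵥ s) k ∈ I
      rw [Matrix.smul_mulVec, Matrix.add_mulVec]
      refine I.smul_mem _ (I.add_mem ?_ ?_)
      · exact col_left h ih _ k
      · exact col_right h ih (FixR.pow h hbfix _) k
  obtain ⟨D, hD⟩ : ∃ D : ℝ, D = Fintype.card ι * (Fintype.card ι * (K * E) * K) * ‖f‖ := ⟨_, rfl⟩
  have hgood : ∀ j i k, Good2 (museq μ j) (Phi (PP s c) (TT s c) (fseq2 a b F0 j) i k)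
      (D ^ 2 * (1 / 2) ^ j) := by
    intro j
    induction j with
    | zero =>
      intro i k
      rw [pow_zero, mul_one]
      refine good_init hμ0 hμs _ fun g x => ?_
      have h1 : ∀ i j, ‖evM x F0 i j‖ ≤ E * ‖f x‖ := by
        intro i j
        rw [evM_apply, hF0]
        change ‖ε i j * f x‖ ≤ _
        rw [norm_mul]
        exact mul_le_mul_of_nonneg_right (hE i j) (norm_nonneg _)
      have h2 := norm_mul3_le (PP s c g) (evM x F0) (TT s c (g * x)) (hKP g) h1 (hKT (g * x)) i k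
      refine h2.trans (le_of_eq ?_)
      rw [hD, hμ]
      field_simp
    | succ j ih =>
      intro i k
      have h1 := step2 (ih i k) (fun g => h.phi_zero _ (hI j) i k g)
        (fun g x => phi_rec (PP s c) (TT s c) h.P_mul h.T_mul (museq μ j) _ _ (fseq2 a b F0 j)
          (hpa j) (hpb j) i k g x)
      have e1 : D ^ 2 * (1 / 2) ^ (j + 1) = D ^ 2 * (1 / 2) ^ j / 2 := by ring
      rw [e1]
      exact h1
  have hθ : Real.sqrt (1 / 2) ^ 2 = 1 / 2 := Real.sq_sqrt (by norm_num)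
  have hθ1 : Real.sqrt (1 / 2) < 1 := by
    nlinarith [Real.sqrt_nonneg (1 / 2)]
  refine ⟨Fintype.card ι * (Fintype.card ι * (|D| * K)), Real.sqrt (1 / 2), Real.sqrt_nonneg _,
    hθ1, fun j => ?_⟩
  have hent : ∀ i l, ‖fseq2 a b F0 j i l‖ ≤ Fintype.card ι * (|D| * Real.sqrt (1 / 2) ^ j * K) := by
    intro i l
    refine norm_ent_le (PP s c) (TT s c) h.P_one h.T_one h.T_mul hKT _ (fun i k => ?_) i l
    obtain ⟨X, hX, hX2⟩ := (hgood j i k).norm_le 1
    refine ⟨X, ?_, hX⟩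
    have e1 : D ^ 2 * (1 / 2) ^ j = (|D| * Real.sqrt (1 / 2) ^ j) ^ 2 := by
      rw [mul_pow, ← pow_mul, mul_comm j 2, pow_mul, hθ, sq_abs]
    rw [e1] at hX2
    exact (le_abs_self X).trans (abs_le_of_sq_le_sq hX2 (by positivity))
  have h3 := norm_le_of_ent (by positivity) hent
  refine h3.trans (le_of_eq ?_)
  ring

end

end Pool.Agent.H640R3.CE
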