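import Mathlib
import Pool.Agent.H640R3.CE.Fin

set_option autoImplicit false

/-!
# Every closed cofinite ideal of the convolution algebra of a discrete group is idempotent
-/

namespace Pool.Agent.H640R3.CE

open Filter Topology
open Pool.Agent.H640R3.CD
open Matrix

noncomputable section

variable {G : Type} [Group G] {ι : Type} [Fintype ι]

lemma dot_formula (s : ι → L G) (v : ι → ℂ) (f : L G) (F0 : Matrix ι ι (L G))
    (hF0 : ∀ i j, F0 i j = (v i * v j) • f) :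
    s ⬝ᵥ (F0 *ᵥ s) = (∑ i, v i • s i) * f * (∑ j, v j • s j) := by
  change ∑ i, s i * ∑ j, F0 i j * s j = _
  rw [sum_smul_mul, Finset.sum_mul]
  refine Finset.sum_congr rfl fun i _ => ?_
  rw [smul_mul_assoc, mul_sum_smul, Finset.smul_sum, Finset.mul_sum]
  refine Finset.sum_congr rfl fun j _ => ?_
  rw [hF0, smul_mul_assoc, mul_smul_comm, smul_smul, mul_assoc]

variable [DecidableEq ι]

attribute [local instance] Matrix.linftyOpNormedRing Matrix.linftyOpNormedAlgebra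

/-- completeness for the normed structure -/
abbrev CSp (A : Type) [NormedRing A] : Prop := CompleteSpace A

instance instCompleteM2 : CSp (Matrix ι ι (L G)) := by
  have : CompleteSpace (ι → ι → L G) := inferInstance
  exact this

variable {I : Submodule ℂ (L G)} {s : ι → L G} {c : ι → (L G →L[ℂ] ℂ)}

lemma power_bound (P : G → Matrix ι ι ℂ) (hP : ∀ g h, P (g * h) = P g * P h) {K : ℝ}
    (hK0 : 0 ≤ K) (hK : ∀ x i j, ‖P x i j‖ ≤ K) {μ : G → ℝ}
    (hμ0 : ∀ x, 0 ≤ μ x) (hμ : HasSum μ 1) (A : Matrix ι ι (L G))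
    (hA : ∀ x, evM x A = (μ x : ℂ) • P x) (k : ℕ) :
    ‖A ^ k‖ ≤ ‖(1 : Matrix ι ι (L G))‖ + Fintype.card ι * K := by
  cases k with
  | zero =>
    rw [pow_zero]
    have : 0 ≤ (Fintype.card ι : ℝ) * K := by positivity
    linarith
  | succ k =>
    obtain ⟨ν, hν0, hν, hνA⟩ := pow_tw P hP hμ0 hμ A hA k
    have h1 := norm_le_of_ent hK0 (norm_tw_le P hK hν0 hν (A ^ (k + 1)) hνA)
    have h2 : 0 ≤ ‖(1 : Matrix ι ι (L G))‖ := norm_nonneg _
    linarith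

/-- elements of the ideal are sums of products of elements of the ideal -/
theorem mem_sq (h : Dat I s c) (f : L G) (hf : f ∈ I) : f ∈ sqI I := by
  by_cases hf0 : f = 0
  · rw [hf0]
    exact (sqI I).zero_mem
  have hN : 0 < ‖f‖ := norm_pos_iff.2 hf0
  obtain ⟨μ, hμ⟩ : ∃ μ : G → ℝ, ∀ x, μ x = ‖f x‖ / ‖f‖ := ⟨_, fun _ => rfl⟩
  have hμ0 : ∀ x, 0 ≤ μ x := fun x => by
    rw [hμ]
    exact div_nonneg (norm_nonneg _) hN.le
  have hμs : HasSum μ 1 := by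
    have h := (norm_hasSum f).div_const ‖f‖
    rw [div_self hN.ne'] at h
    have e1 : μ = fun x => ‖f x‖ / ‖f‖ := funext hμ
    rw [e1]
    exact h
  obtain ⟨K, hK0, hKP, hKT⟩ := exists_bound s c
  have hKT' : ∀ (x : G) i j, ‖(fun x => TT s c x⁻¹) x i j‖ ≤ K := fun x => hKT x⁻¹
  have hP' : ∀ g k : G, (fun x => TT s c x⁻¹) (g * k)
      = (fun x => TT s c x⁻¹) g * (fun x => TT s c x⁻¹) k := by
    intro g k
    change TT s c (g * k)⁻¹ = TT s c g⁻¹ * TT s c k⁻¹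
    rw [_root_.mul_inv_rev, h.T_mul]
  obtain ⟨a, ha⟩ := exists_tw (PP s c) hKP hμ0 hμs
  obtain ⟨b, hb⟩ := exists_tw (fun x => TT s c x⁻¹) hKT' hμ0 hμs
  have hafix := h.fixL hμs ha
  have hbfix := h.fixR hμs hb
  have hpa := power_bound (PP s c) h.P_mul hK0 hKP hμ0 hμs a ha
  have hpb := power_bound (fun x => TT s c x⁻¹) hP' hK0 hKT' hμ0 hμs b hb
  obtain ⟨F0, hF0⟩ : ∃ F0 : Matrix ι ι (L G), ∀ i j, F0 i j = (c i 1 * c j 1) • f :=
    ⟨Matrix.of fun i j => (c i 1 * c j 1) • f, fun _ _ => rfl⟩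
  have hF2 : ∀ k, (F0 *ᵥ s) k ∈ I := by
    intro k
    change ∑ j, F0 k j * s j ∈ I
    refine Submodule.sum_mem _ fun j _ => ?_
    rw [hF0]
    exact h.right _ (I.smul_mem _ hf) _
  have hF1 : ∀ k, (s ᵥ* F0) k ∈ I := by
    intro k
    change ∑ j, s j * F0 j k ∈ I
    refine Submodule.sum_mem _ fun j _ => ?_
    rw [hF0]
    exact h.left _ (I.smul_mem _ hf) _
  obtain ⟨D, θ, hθ0, hθ1, hdec⟩ := decay h f hf0 μ hμ hμ0 hμs a b ha hb
    (Matrix.of fun i j => c i 1 * c j 1) F0 hF0 hF2 hbfix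
  obtain ⟨r, l, hrl, hr, hl, hS⟩ := two_sided' a b _ hpa hpb (fseq2 a b F0) (fun j => rfl) D θ
    hθ0 hθ1 hdec
  obtain ⟨ρ, y, hy, hρ, hyS⟩ := left_fac' a r _ hpa hr
  obtain ⟨ρ', y', hy', hρ', hyS'⟩ := right_fac' b l _ hpb hl
  -- the invariant subspaces
  have hr2 : r ∈ Nul (phi2 s c) := (hS _ (isClosed_Nul _) ((mem2 h).2 hF2)
    (fun z hz => (mem2 h).2 (fun k => col_left h ((mem2 h).1 hz) a k))
    (fun z hz => (mem2 h).2 (fun k => col_right h ((mem2 h).1 hz) hbfix k))).1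
  have hl1 : l ∈ Nul (phi1 s c) := (hS _ (isClosed_Nul _) ((mem1 h).2 hF1)
    (fun z hz => (mem1 h).2 (fun k => row_left h ((mem1 h).1 hz) hafix k))
    (fun z hz => (mem1 h).2 (fun k => row_right h ((mem1 h).1 hz) b k))).2
  have hy2 : ∀ k, (y *ᵥ s) k ∈ I := (mem2 h).1 (hyS _ (isClosed_Nul _) hr2
    (fun z w hw => (mem2 h).2 (fun k => col_left h ((mem2 h).1 hw) z k)))
  have hy1 : ∀ k, (s ᵥ* y') k ∈ I := (mem1 h).1 (hyS' _ (isClosed_Nul _) hl1
    (fun z w hw => (mem1 h).2 (fun k => row_right h ((mem1 h).1 hw) z k)))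
  have hρ1 : ∀ k, (s ᵥ* (1 - ρ)) k ∈ I := by
    intro k
    refine h.mem fun l => ?_
    have h1 := hρ (phi1 s c (k, l)) (fun n => by
      rw [phi1_apply, phi1_apply]
      change c l ((s ᵥ* (a ^ n)) k) = c l ((s ᵥ* 1) k)
      have h2 := h.zero l _ (FixL.pow h hafix n k)
      rw [map_sub, sub_eq_zero] at h2
      rw [h2, Matrix.vecMul_one])
    rw [phi1_apply, phi1_apply] at h1
    have h3 : (s ᵥ* (1 - ρ)) k = (s ᵥ* (1 : Matrix ι ι (L G))) k - (s ᵥ* ρ) k := by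
      rw [Matrix.vecMul_sub]
      rfl
    rw [h3, map_sub, sub_eq_zero]
    exact h1.symm
  have hρ2 : ∀ k, ((1 - ρ') *ᵥ s) k ∈ I := by
    intro k
    refine h.mem fun l => ?_
    have h1 := hρ' (phi2 s c (k, l)) (fun n => by
      rw [phi2_apply, phi2_apply]
      change c l (((b ^ n) *ᵥ s) k) = c l ((1 *ᵥ s) k)
      have h2 := h.zero l _ (FixR.pow h hbfix n k)
      rw [map_sub, sub_eq_zero] at h2
      rw [h2, Matrix.one_mulVec])
    rw [phi2_apply, phi2_apply] at h1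
    have h3 : ((1 - ρ') *ᵥ s) k = ((1 : Matrix ι ι (L G)) *ᵥ s) k - (ρ' *ᵥ s) k := by
      rw [Matrix.sub_mulVec]
      rfl
    rw [h3, map_sub, sub_eq_zero]
    exact h1.symm
  -- the products
  have hΩr : s ⬝ᵥ (r *ᵥ s) ∈ sqI I := by
    have e1 : s ⬝ᵥ (r *ᵥ s) = (s ᵥ* (1 - ρ)) ⬝ᵥ (y *ᵥ s) := by
      rw [hy]
      change s ⬝ᵥ (((1 - ρ) * y) *ᵥ s) = _
      rw [← Matrix.mulVec_mulVec, Matrix.dotProduct_mulVec]
    rw [e1]
    exact dot_mem hρ1 hy2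
  have hΩl : s ⬝ᵥ (l *ᵥ s) ∈ sqI I := by
    have e1 : s ⬝ᵥ (l *ᵥ s) = (s ᵥ* y') ⬝ᵥ ((1 - ρ') *ᵥ s) := by
      rw [hy']
      change s ⬝ᵥ ((y' * (1 - ρ')) *ᵥ s) = _
      rw [← Matrix.mulVec_mulVec, Matrix.dotProduct_mulVec]
    rw [e1]
    exact dot_mem hy1 hρ2
  have hΩ : s ⬝ᵥ (F0 *ᵥ s) ∈ sqI I := by
    have e1 : F0 = r + l := hrl
    rw [e1]
    have e2 : s ⬝ᵥ ((r + l) *ᵥ s) = s ⬝ᵥ (r *ᵥ s) + s ⬝ᵥ (l *ᵥ s) := by
      rw [Matrix.add_mulVec, dotProduct_add]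
    rw [e2]
    exact (sqI I).add_mem hΩr hΩl
  rw [dot_formula s (fun i => c i 1) f F0 hF0] at hΩ
  obtain ⟨u, hu⟩ : ∃ u, u = ∑ i, c i 1 • s i := ⟨_, rfl⟩
  rw [← hu] at hΩ
  have hw : 1 - u ∈ I := by
    rw [hu]
    exact h.dec 1
  have e3 : f = u * f * u + f * (1 - u) + (1 - u) * (f * u) := by
    noncomm_ring
  rw [e3]
  exact (sqI I).add_mem ((sqI I).add_mem hΩ (mem_sqI hf hw)) (mem_sqI hw (h.right _ hf _))

/-- existence of the data -/
theorem exists_dat (I : Submodule ℂ (L G)) (hcl : IsClosed (I : Set (L G)))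
    (hl : ∀ a ∈ I, ∀ b, b * a ∈ I) (hr : ∀ a ∈ I, ∀ b, a * b ∈ I)
    [FiniteDimensional ℂ (L G ⧸ I)] :
    ∃ (s : Fin (Module.finrank ℂ (L G ⧸ I)) → L G)
      (c : Fin (Module.finrank ℂ (L G ⧸ I)) → (L G →L[ℂ] ℂ)), Dat I s c := by
  have := hcl
  obtain ⟨B, -⟩ : ∃ B : Module.Basis (Fin (Module.finrank ℂ (L G ⧸ I))) ℂ (L G ⧸ I), True :=
    ⟨Module.finBasis ℂ (L G ⧸ I), trivial⟩
  have hlift : ∀ i, ∃ t : L G, I.mkQ t = B i := fun i => Submodule.mkQ_surjective I (B i)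
  choose s hs using hlift
  have hcont : ∀ i, ∃ φ : L G →L[ℂ] ℂ, ∀ a, φ a = B.repr (I.mkQ a) i := by
    intro i
    obtain ⟨ψ, hψ⟩ : ∃ ψ : (L G ⧸ I) →L[ℂ] ℂ, ∀ a, ψ a = B.repr a i :=
      ⟨LinearMap.toContinuousLinearMap (B.coord i), fun a => rfl⟩
    refine ⟨LinearMap.mkContinuous ((ψ : (L G ⧸ I) →ₗ[ℂ] ℂ).comp I.mkQ) ‖ψ‖ (fun a => ?_),
      fun a => hψ _⟩
    refine (ψ.le_opNorm _).trans (mul_le_mul_of_nonneg_left ?_ (norm_nonneg _))
    exact Submodule.Quotient.norm_mk_le I a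
  choose c hc using hcont
  refine ⟨s, c, hl, hr, ?_, ?_, ?_⟩
  · intro i a ha
    have h0 : I.mkQ a = 0 := (Submodule.Quotient.mk_eq_zero I).2 ha
    rw [hc, h0, map_zero]
    rfl
  · intro a
    have h0 : I.mkQ (a - ∑ i, c i a • s i) = 0 := by
      rw [map_sub, map_sum, sub_eq_zero]
      have h1 : ∀ i, I.mkQ (c i a • s i) = B.repr (I.mkQ a) i • B i := fun i => by
        rw [map_smul, hs, hc]
      simp only [h1]
      exact (B.sum_repr (I.mkQ a)).symm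
    exact (Submodule.Quotient.mk_eq_zero I).1 h0
  · intro i j
    rw [hc, hs, B.repr_self, Finsupp.single_apply]
    simp only [eq_comm]

/-- **Main theorem.** Every closed two-sided ideal of finite codimension in the convolution algebra
of a discrete group is the linear span of products of pairs of its elements. -/
theorem idempotent (I : Submodule ℂ (L G)) (hcl : IsClosed (I : Set (L G)))
    (hl : ∀ a ∈ I, ∀ b, b * a ∈ I) (hr : ∀ a ∈ I, ∀ b, a * b ∈ I)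
    [FiniteDimensional ℂ (L G ⧸ I)] : sqI I = I := by
  apply le_antisymm
  · refine Submodule.span_le.2 ?_
    rintro h ⟨a, ha, b, hb, rfl⟩
    exact hr a ha b
  · obtain ⟨s, c, h⟩ := exists_dat I hcl hl hr
    intro f hf
    exact mem_sq h f hf

end

end Pool.Agent.H640R3.CE
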